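import Pool.Agent.Y8.ED.Defs
import Pool.Agent.Y8.DI.Kdp
import Pool.Agent.Y303.EJ.Blow

/-! Project ED: blow-up for the full system of the modes (adapted from `Y303.EJ.Blow`). -/

open Set Filter Topology MeasureTheory

set_option autoImplicit false

namespace Pool.Agent.Y8.ED

open Pool.Agent.Y5.D (Ix qd vf3 Init)
open Pool.Agent.Y6.N
open Pool.Agent.Y6.K (Kz lv)
open Pool.Agent.Y6.N.Bl (fin_lv fsupp summ en_main abs_le_one pf PBd xsol Good Good.mono good_zero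
  pow_exp)
open Pool.Agent.Y303.SK
open Pool.Agent.Y303.EJ
open Pool.Agent.Y303.EJ.Bw
open Pool.Agent.Y8.DI

theorem t_BLOWED_of (hGAL : S_GAL3) (hBOOT : S_BOOTD) (hLIM : S_LIME) (hPERS : S_PERSE)
    (hLOC : S_LOCE) (hODE : S_ODEE) (hPB : S_PBE) : S_BLOWED := by
  intro J g₀ o σ τ η lm L C ℓ ρ B R E D c β₁ S₁ K₀ hq Rt hβ₁
  obtain ⟨φ₁, hφ₁, T₁, hT₁, hode⟩ := hODE η lm L C ℓ B hq
  have hpos : ∀ m, 0 < L m := fun m => lt_of_lt_of_le one_pos (L_one hq m)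
  set φ : ℕ → ℝ := fun n => min (φ₁ n) (Real.exp (-L n)) with hφdef
  have hφ0 : ∀ n, 0 < φ n := fun n => lt_min (hφ₁ n) (Real.exp_pos _)
  have hφ : ∀ k : ℕ, ∃ X, ∀ n, L n ^ k * φ n ≤ X := fun k =>
    ⟨k.factorial, fun n => (mul_le_mul_of_nonneg_left (min_le_right _ _)
      (pow_pos (hpos n) k).le).trans (pow_exp k (hpos n).le)⟩
  obtain ⟨β₂, hβ₂, hs₂, hpb⟩ := hPB J g₀ o σ τ η lm L C ℓ ρ φ B R E D c K₀ hq Rt hφ0
  -- an injective numbering of the other modes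
  have hcount : Countable J := countable_of_rot Rt
  obtain ⟨g, hg⟩ := exists_injective_nat J
  set βJ : J → ℝ := fun j => min (β₂ j) (β₁ j) with hβJ
  obtain ⟨β, hβdef⟩ : ∃ β : ℕ → ℝ, ∀ j, β (g j) = βJ j := by
    refine ⟨Function.extend g βJ 0, fun j => ?_⟩
    exact hg.extend_apply _ _ _
  have hβ0 : ∀ j, 0 < β (g j) := fun j => by rw [hβdef]; exact lt_min (hβ₂ j) (hβ₁ j)
  have hβ2 : ∀ j, β (g j) ≤ β₂ j := fun j => by rw [hβdef]; exact min_le_left _ _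
  have hβ1 : ∀ j, β (g j) ≤ β₁ j := fun j => by rw [hβdef]; exact min_le_right _ _
  have hs : Summable (fun j => β (g j)) :=
    Summable.of_nonneg_of_le (fun j => (hβ0 _).le) (fun j => hβ2 _) hs₂
  set Θ : ℝ := T₁ + 1 with hΘ
  have hΘ0 : 0 < Θ := by linarith
  obtain ⟨S, hS1, hS₁, hS⟩ := hBOOT J g₀ o σ τ L C ℓ ρ B R E D c Θ (fun j => β (g j)) S₁ K₀ Rt
    hΘ0 hβ0
  have hSn : ∀ m, 0 ≤ S m := fun m => zero_le_one.trans (hS1 m)
  obtain ⟨D', hD'⟩ : ∃ D', D' = Dp S o D := ⟨_, rfl⟩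
  obtain ⟨E', hE'⟩ : ∃ E', E' = fun i => E i + rt S o i := ⟨_, rfl⟩
  have K : KD g₀ L C ℓ ρ B R E' D' c := by
    rw [hD', hE']
    exact t_KDP J g₀ o L C ℓ ρ B R E D c S K₀ hSn
  rw [← hD'] at hS
  have hp : PBd g L C ℓ B D' c φ β := by
    intro z hz1 hz2 hz3 n hn
    have h1 := hpb z hz1 hz2 (fun j => (hz3 j).trans (hβ2 _)) n hn
    have h2 : lin D' z (Sum.inl n) = lin D z (Sum.inl n) := by
      unfold lin
      rw [hD']
      exact tsum_congr fun b => by rw [Dp_inl]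
    rw [h2]
    exact h1
  have hDpos : ∀ (s : Finset (Ix J)) (z : Ix J → ℝ),
      0 ≤ ∑ a ∈ s, ∑ b ∈ s, D' a b * z a * z b := by
    intro s z
    refine le_trans (Finset.sum_nonneg fun a _ => ?_) (K.coer s z)
    refine mul_nonneg ?_ (sq_nonneg _)
    rcases a with n | w
    · exact K.ρ0 n
    · exact le_rfl
  choose Z hZ using hGAL J o σ τ D' c Θ (fun _ => 0) Rt hDpos K.anti hΘ0
  have hb : ∀ n j, ∀ t ∈ Icc (0 : ℝ) Θ, |Z n (Sum.inr j) t| ≤ β (g j) :=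
    fun n j t ht => (hS n (Z n) (hZ n) j t ht).1
  set U : Ultrafilter ℕ := Filter.hyperfilter ℕ with hU
  obtain ⟨z, hl, hinit, hen, hbz, hder⟩ := hLIM J g₀ o σ τ η lm L C ℓ ρ B R E' D' c Θ (fun _ => 0)
    (fun j => β (g j)) K hq Rt hΘ0 (fun j => (hβ0 _).le) hs Z hZ hb U
    Nat.hyperfilter_le_atTop
  -- the equation on the intervals of good times
  have hgd : ∀ θ, Good Θ L U Z θ → ∀ i, ∀ t ∈ Icc 0 θ, HasDerivWithinAt (z i)
      (Kz (fun _ => 0) o σ τ (fun a => z a t) i - lin D' (fun a => z a t) i + qd c (fun a => z a t) i)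
      (Icc 0 θ) t := by
    intro θ hθ
    obtain ⟨Y, hY⟩ := goodPers hPERS hq hφ0 hφ Rt hp hZ hb hθ 1
    refine hder θ hθ.1 hθ.2.1 ⟨Y, hY.mono fun n hn t ht m => ?_⟩
    have := hn t ht m
    rwa [pow_one] at this
  have hglim : ∀ θ, Good Θ L U Z θ → ∀ k : ℕ, ∃ Y, ∀ m, ∀ t ∈ Icc 0 θ,
      L m ^ k * |z (Sum.inl m) t| ≤ Y := fun θ hθ k =>
    goodLim hPERS hq hφ0 hφ Rt hp hZ hb hθ hl k
  have hgx : ∀ θ, Good Θ L U Z θ →
      XSol L C ℓ B φ 0 θ (fun m => z (Sum.inl m)) (pf L C ℓ B D' c z) := fun θ hθ =>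
    xsol_lim' K hq hs hp hen hbz hθ.2.1 (hgd θ hθ) (hglim θ hθ 1)
  -- the good times are at most `T₁`
  have hle1 : ∀ θ, Good Θ L U Z θ → θ ≤ T₁ := by
    intro θ hθ
    rcases hθ.1.eq_or_lt with h0 | h0
    · rw [← h0]; exact hT₁.le
    have hx := hgx θ hθ
    refine (hode θ (fun m => z (Sum.inl m)) (pf L C ℓ B D' c z) h0 ?_ ?_ ?_ ?_ hinit.1
      hinit.2.1).1
    · intro n t ht
      have h1 := (hgd θ hθ (Sum.inl n) t ⟨ht.1, ht.2.le⟩).mono Ico_subset_Icc_self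
      refine h1.congr_deriv ?_
      simp only [Kz, pf]
      ring
    · intro T' hT'
      obtain ⟨Y, hY⟩ := hglim θ hθ 10
      exact ⟨Y, fun t ht n => hY n t ⟨ht.1, ht.2.trans hT'.le⟩⟩
    · exact fun t ht => (hx.en t ⟨ht.1, ht.2.le⟩).2
    · intro n t ht
      refine (hx.pert n t ⟨ht.1, ht.2.le⟩).trans ?_
      exact add_le_add (mul_le_mul_of_nonneg_right (min_le_left _ _) (abs_nonneg _))
        (min_le_left _ _)
  have hG0 : Good Θ L U Z 0 := good_zero hΘ0.le fun n => (hZ n).init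
  set G : Set ℝ := {θ | Good Θ L U Z θ} with hG
  have hbdd : BddAbove G := ⟨T₁, fun θ hθ => hle1 θ hθ⟩
  set T := sSup G with hT
  have hTle : T ≤ T₁ := csSup_le ⟨0, hG0⟩ fun θ hθ => hle1 θ hθ
  have hlt : ∀ θ, 0 ≤ θ → θ < T → Good Θ L U Z θ := by
    intro θ h0 h1
    obtain ⟨θ', h2, h3⟩ := exists_lt_of_lt_csSup ⟨0, hG0⟩ h1
    exact Good.mono h2 h0 h3.le
  have hTpos : 0 < T := by
    obtain ⟨δ, Y, hδ, hloc⟩ := hLOC η lm L C ℓ B φ hq hφ0 hφ (L 0 ^ 3 + 1)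
    have h1 : Good Θ L U Z (min (0 + δ) Θ) := by
      refine goodExtend hPERS hq hφ0 hφ Rt hp hZ hb hl (pow_pos (hpos 0) 3).le hloc hδ hG0
        fun m => ?_
      rcases m with _ | m
      · rw [hinit.1]; simp
      · rw [hinit.2.1]; simpa using (pow_pos (hpos 0) 3).le
    have h2 : 0 < min (0 + δ) Θ := lt_min (by linarith) hΘ0
    exact lt_of_lt_of_le h2 (le_csSup hbdd h1)
  have hsub : Ico 0 T ⊆ Icc (0 : ℝ) Θ := fun t ht => ⟨ht.1, by linarith [ht.2]⟩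
  -- the limit is a regular solution on `[0, T)`
  have hdT : ∀ i, ∀ t ∈ Ico 0 T, HasDerivWithinAt (z i)
      (Kz (fun _ => 0) o σ τ (fun a => z a t) i - lin D' (fun a => z a t) i + qd c (fun a => z a t) i)
      (Ico 0 T) t := by
    intro i t ht
    obtain ⟨θ, h1, h2⟩ := exists_between ht.2
    have h3 := hgd θ (hlt θ (ht.1.trans h1.le) h2) i t ⟨ht.1, h1.le⟩
    refine h3.mono_of_mem_nhdsWithin ?_
    refine mem_nhdsWithin.2 ⟨Iio θ, isOpen_Iio, h1, ?_⟩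
    rintro s ⟨hs1, hs2⟩
    exact ⟨hs2.1, le_of_lt hs1⟩
  have hreg : ∀ k : ℕ, ∀ T' < T, ∃ X, ∀ t ∈ Icc 0 T', ∀ n,
      L n ^ k * |z (Sum.inl n) t| ≤ X := by
    intro k T' hT'
    rcases lt_or_ge T' 0 with h0 | h0
    · exact ⟨0, fun t ht => absurd (ht.1.trans ht.2) (not_le.2 h0)⟩
    · obtain ⟨Y, hY⟩ := hglim T' (hlt T' h0 hT') k
      exact ⟨Y, fun t ht n => hY n t ht⟩
  -- the main modes are unbounded
  have hunb : ∀ X : ℝ, ∃ t ∈ Ico 0 T, ∃ n, X < L n ^ 2 * |z (Sum.inl n) t| := by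
    intro X
    by_contra hcon
    push Not at hcon
    obtain ⟨Y, hY⟩ := hPERS η lm L C ℓ B φ hq hφ0 hφ Θ 3 X
    have h1 : ∀ t ∈ Ico 0 T, ∀ n, L n ^ 3 * |z (Sum.inl n) t| ≤ |Y| := by
      intro t ht n
      have hg := hlt t ht.1 ht.2
      exact (hY t _ _ ht.1 hg.2.1 (hgx t hg) hinit.1 hinit.2.1
        (fun m s hs' => hcon s ⟨hs'.1, hs'.2.trans_lt ht.2⟩ m)
        ((hglim t hg 3).imp fun X' hX' m s hs' => hX' m s hs') n t ⟨ht.1, le_rfl⟩).trans
        (le_abs_self _)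
    obtain ⟨δ, Y', hδ, hloc⟩ := hLOC η lm L C ℓ B φ hq hφ0 hφ (|Y| + 1)
    set θ := max 0 (T - δ / 2) with hθ
    have hθ0 : 0 ≤ θ := le_max_left _ _
    have hθT : θ < T := max_lt hTpos (by linarith)
    have h2 := goodExtend hPERS hq hφ0 hφ Rt hp hZ hb hl (abs_nonneg Y) hloc hδ
      (hlt θ hθ0 hθT) (h1 θ ⟨hθ0, hθT⟩)
    have h3 : min (θ + δ) Θ ≤ T := le_csSup hbdd h2
    have h4 : T < min (θ + δ) Θ := by
      refine lt_min ?_ (by linarith)
      have := le_max_right 0 (T - δ / 2)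
      linarith
    linarith
  have hSz : ∀ j, ∀ t ∈ Ico 0 T, S (o j) * z (Sum.inr j) t ^ 2 ≤ β₁ j := by
    intro j t ht
    refine le_trans ?_ (hβ1 j)
    refine le_of_tendsto (((hl (Sum.inr j) t (hsub ht)).pow 2).const_mul (S (o j))) ?_
    exact Eventually.of_forall fun n => (hS n (Z n) (hZ n) j t (hsub ht)).2
  have hdT' := hdT
  rw [hD'] at hdT
  have hx : ∀ t ∈ Ico 0 T, XSol L C ℓ B φ 0 t (fun m => z (Sum.inl m)) (pf L C ℓ B D' c z) :=
    fun t ht => hgx t (hlt t ht.1 ht.2)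
  have hO := hode T (fun m => z (Sum.inl m)) (pf L C ℓ B D' c z) hTpos (fun n t ht => by
      refine (hdT' (Sum.inl n) t ht).congr_deriv ?_
      simp only [Kz, pf]
      ring) (fun T' hT' => by
      obtain ⟨X, hX⟩ := hreg 10 T' hT'
      exact ⟨X, fun t ht n => hX t ht n⟩)
    (fun t ht => ((hx t ht).en t ⟨ht.1, le_rfl⟩).2) (fun n t ht => by
      refine ((hx t ht).pert n t ⟨ht.1, le_rfl⟩).trans ?_
      exact add_le_add (mul_le_mul_of_nonneg_right (min_le_left _ _) (abs_nonneg _))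
        (min_le_left _ _)) hinit.1 hinit.2.1
  have henl : ∀ t ∈ Ico 0 T, 1 - η ≤ ∑' a, z a t ^ 2 := by
    intro t ht
    refine (hO.2.1 t ht).trans ?_
    exact tsum_comp_le_tsum_of_inj (hen t (hsub ht)).1 (fun a => sq_nonneg _) Sum.inl_injective
  have hfirst : ∀ n, (∃ t ∈ Ico 0 T, 9 / 10 ≤ z (Sum.inl n) t) ∧
      ∃ s ∈ Ico 0 T, ∀ t ∈ Ico s T, |z (Sum.inl n) t| ≤ dl η n := by
    rcases hO.2.2 with h | ⟨n₀, h⟩
    · exact h
    · exfalso
      obtain ⟨t, ht, n, hn⟩ := hunb (1 + L (n₀ + 1) ^ 2)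
      have h1 : |z (Sum.inl n) t| ≤ 1 :=
        abs_le_one (hen t (hsub ht)).1 (hen t (hsub ht)).2 (Sum.inl n)
      rcases le_or_gt n (n₀ + 1) with hnn | hnn
      · have h2 : L n ^ 2 * |z (Sum.inl n) t| ≤ L (n₀ + 1) ^ 2 * 1 :=
          mul_le_mul (pow_le_pow_left₀ (hpos n).le (L_mono hq hnn) 2) h1 (abs_nonneg _)
            (pow_pos (hpos _) 2).le
        linarith
      · have h2 := h t ht n (by omega)
        obtain ⟨m, rfl⟩ : ∃ m, n = m + 1 := ⟨n - 1, by omega⟩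
        rw [Nat.add_sub_cancel] at h2
        have h10 : (0 : ℝ) ≤ lm m := le_trans (by norm_num) (lm_big' hq m)
        have h3 : L (m + 1) ^ 2 ≤ Real.exp (lm m / 10 ^ 6) := by
          have h4 := hq.exp_big m
          have h5 : L (m + 1) ≤ L (m + 5) / dl η (m + 5) := by
            have h6 := L_mono hq (show m + 1 ≤ m + 5 by omega)
            have h7 := dl_pos hq (m + 5)
            have h7' := dl_le hq (m + 5)
            have h8 := hpos (m + 5)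
            rw [le_div_iff₀ h7]
            nlinarith [hpos (m + 1)]
          have h9 : 1 ≤ L (m + 5) / dl η (m + 5) := (L_one hq (m + 1)).trans h5
          calc L (m + 1) ^ 2 ≤ (L (m + 5) / dl η (m + 5)) ^ 2 :=
                pow_le_pow_left₀ (hpos _).le h5 2
            _ ≤ (L (m + 5) / dl η (m + 5)) ^ 10 := pow_le_pow_right₀ h9 (by norm_num)
            _ ≤ _ := h4
            _ ≤ Real.exp (lm m / 10 ^ 6) := by
              apply Real.exp_le_exp.2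
              have h12 := dl_le hq m
              have h13 := dl_pos hq m
              have : dl η m * lm m ≤ 1 * lm m := mul_le_mul_of_nonneg_right h12 h10
              linarith
        have h11 : L (m + 1) ^ 2 * |z (Sum.inl (m + 1)) t| ≤ 1 := by
          calc L (m + 1) ^ 2 * |z (Sum.inl (m + 1)) t|
              ≤ Real.exp (lm m / 10 ^ 6) * Real.exp (-(lm m / 200)) :=
                mul_le_mul h3 h2 (abs_nonneg _) (Real.exp_pos _).le
            _ = Real.exp (lm m / 10 ^ 6 + -(lm m / 200)) := (Real.exp_add _ _).symm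
            _ ≤ 1 := by
                rw [Real.exp_le_one_iff]
                linarith
        have h12 := pow_pos (hpos (n₀ + 1)) 2
        linarith
  exact ⟨S, hS1, hS₁, T, z, hTpos, ⟨hdT, hinit, hreg, fun t ht => hen t (hsub ht),
    fun w t ht => (hbz w t (hsub ht)).trans (hβ1 _), fun n => (hfirst n).1, henl,
    fun n => (hfirst n).2⟩, hSz⟩

end Pool.Agent.Y8.ED
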