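import Pool.Agent.Y8.ED.Fin
import Pool.Agent.Y8.ED.Blow
import Pool.Agent.Y303.EJ.Fine
import Pool.Agent.Y954.DI.Ener

/-! Project ED: everything together. -/

set_option autoImplicit false

namespace Pool.Agent.Y8.ED

open Pool.Agent.Y303.SK Pool.Agent.Y303.EJ Pool.Agent.Y8.DI

theorem t_BLOWED : S_BLOWED :=
  t_BLOWED_of Pool.Agent.Y421.SK.t_GAL3 t_BOOTD Pool.Agent.Y987.EJ.t_LIME
    Pool.Agent.Y523.EJ.t_PERSE Pool.Agent.Y523.EJ.t_LOCE t_ODEE' Pool.Agent.Y812.EJ.t_PBE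

theorem t_CORED : S_CORED :=
  t_CORED_of t_BLOWED Pool.Agent.Y448.SK.t_PK Pool.Agent.Y44.EJ.t_PARE Pool.Agent.Y303.SK.t_BAS
    Pool.Agent.Y317.SK.t_FORM Pool.Agent.Y686.EJ.t_MME t_INTE Pool.Agent.Y419.EJ.t_DERBE t_CONCE
    Pool.Agent.Y427.SK.t_SER Pool.Agent.Y954.DI.t_ENERD Pool.Agent.Y936.EJ.t_WC

theorem t_FINED_of' (hEND : S_RF → S_WC → S_ENDD)
    (hW5 : S_W2 → S_W3 → S_W4 → S_PR → S_WC → S_W5D)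
    (hW7 : S_W3 → S_W5D → S_W6 → S_GR → S_WC → S_W7D) : S_FINED :=
  t_FINED_of t_CORED (hEND Pool.Agent.Y936.EJ.t_RF Pool.Agent.Y936.EJ.t_WC)
    (hW7 Pool.Agent.Y151.EJ.t_W3
      (hW5 Pool.Agent.Y310.EJ.t_W2 Pool.Agent.Y151.EJ.t_W3 Pool.Agent.Y401.EJW.t_W4
        Pool.Agent.Y702.EJ.t_PR Pool.Agent.Y936.EJ.t_WC)
      (Pool.Agent.Y812.EJ.W6.t_W6 Pool.Agent.Y310.EJ.t_W2) Pool.Agent.Y702.EJ.t_GR
      Pool.Agent.Y936.EJ.t_WC)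

end Pool.Agent.Y8.ED
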