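import Pool.Agent.Y8.ED.Conc
import Pool.Agent.Y8.ED.All
import Pool.Agent.Y407.DI.Uniq
import Pool.Agent.Y8.DI.Res

/-!
Project ED: blow-up with concentration of the energy, in the form in which it is stated (fields on
`EuclideanSpace ℝ (Fin 3)`). The definitions `dvg`, `CS`, `ipr`, `dirf`, `adv`, `InH`, `SmD` are in
`Pool.Agent.Y303.SK.Res`, and `DissD`, `SolL`, `Damp`, `EnL`, `AwayL` in `Pool.Agent.Y8.DI.Res`.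
-/

open Set MeasureTheory Metric

set_option autoImplicit false

namespace Pool.Agent.Y8.ED

open Pool.Agent.Y303.SK Pool.Agent.Y303.EJ Pool.Agent.Y8.DI

theorem t_MAINC : S_MAINC :=
  t_MAINC_of t_BLOWED Pool.Agent.Y448.SK.t_PK Pool.Agent.Y44.EJ.t_PARE Pool.Agent.Y303.SK.t_BAS
    Pool.Agent.Y317.SK.t_FORM Pool.Agent.Y686.EJ.t_MME t_INTE Pool.Agent.Y419.EJ.t_DERBE t_CONCE
    Pool.Agent.Y427.SK.t_SER Pool.Agent.Y954.DI.t_ENERD Pool.Agent.Y407.DI.t_UNIQD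
    Pool.Agent.Y936.EJ.t_WC

end Pool.Agent.Y8.ED

namespace Pool.Agent.Y8.EDC

open Pool.Agent.Y303.SKR Pool.Agent.Y8.DIR

/-- The energy stays above `(1 - η) ‖u(0)‖²`, and as `t → T` all of it but `η ‖u(0)‖²` at most
concentrates at the point `p`. -/
def ConcL (p : EuclideanSpace ℝ (Fin 3)) (η T : ℝ)
    (u : ℝ → EuclideanSpace ℝ (Fin 3) → EuclideanSpace ℝ (Fin 3)) : Prop :=
  (∀ t ∈ Ico 0 T, (1 - η) * ipr (u 0) (u 0) ≤ ipr (u t) (u t)) ∧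
    ∀ ρ > 0, ∃ s ∈ Ico 0 T, ∀ t ∈ Ico s T,
      ∫ x in (ball p ρ)ᶜ, ‖u t x‖ ^ 2 ≤ η * ipr (u 0) (u 0)

theorem t_RESC (ν : ℝ) (Ω : Set (EuclideanSpace ℝ (Fin 3))) (p : EuclideanSpace ℝ (Fin 3))
    (Λ : (EuclideanSpace ℝ (Fin 3) → EuclideanSpace ℝ (Fin 3)) → ℝ) (η : ℝ) (hν : 0 < ν)
    (hΩ : IsOpen Ω) (hb : Bornology.IsBounded Ω) (hp : p ∈ Ω) (hη : 0 < η) :
    ∃ (ι : Type) (e : ι → EuclideanSpace ℝ (Fin 3) → EuclideanSpace ℝ (Fin 3)) (lam : ι → ℝ)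
      (ψ : ℕ → ι) (T : ℝ) (u : ℝ → EuclideanSpace ℝ (Fin 3) → EuclideanSpace ℝ (Fin 3)),
      DissD Ω e lam ∧ Damp p Λ e lam ψ ∧ 0 < T ∧ SolL Ω ν e lam T u ∧ u 0 = e (ψ 0) ∧
      SmD T u ∧
      (∀ (T' : ℝ) (v : ℝ → EuclideanSpace ℝ (Fin 3) → EuclideanSpace ℝ (Fin 3)), 0 < T' →
        SolL Ω ν e lam T' v → v 0 = u 0 → T' ≤ T ∧ ∀ t ∈ Ico 0 T', v t = u t) ∧
      EnL ν e lam T u ∧ AwayL p T u ∧ (∀ M : ℝ, ∃ t ∈ Ico 0 T, ∃ x, M < ‖u t x‖) ∧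
      ConcL p η T u := by
  obtain ⟨ι, e, lam, ψ, T, u, h1, h2, h3, h4, h5, h6, h7, h8, h9, h10, h11, h12, h13, h14, h15⟩ :=
    ED.t_MAINC ν Ω p Λ η hν hΩ hb hp hη
  refine ⟨ι, e, lam, ψ, T, u, dissD_iff.2 h1, ⟨h2, h3, h4⟩, h5, solL_iff.2 h6, h7, ⟨h8, h9⟩, ?_,
    h11, h12, h13, h14, h15⟩
  intro T' v hT' hv hv0
  exact h10 T' v hT' (solL_iff.1 hv) hv0

end Pool.Agent.Y8.EDC
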