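import Pool.Agent.Y303.EJ.W
import Pool.Agent.Y8.DI.Defs

/-!
Project ED: the Navier-Stokes equations with Dirichlet conditions in a bounded open set and an
additional dissipation `D = ∑ lam i ⟨·, e i⟩ e i ≥ 0`: a Leray-Hopf solution which is smooth on
`[0, T)` and loses almost all its energy at the time `T`. Definitions and statements.
-/

open Set Filter Topology MeasureTheory Metric

set_option autoImplicit false

namespace Pool.Agent.Y8.ED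

open Pool.Agent.Y5 (E3)
open Pool.Agent.Y5.D (Ix qd vf3 Init)
open Pool.Agent.Y6.N
open Pool.Agent.Y6.K (Kz lv)
open Pool.Agent.Y303.SK
open Pool.Agent.Y303.EJ
open Pool.Agent.Y8.DI

/-- the form `⟨D v, v⟩` -/
noncomputable def dsp {ι : Type} (e : ι → E3 → E3) (lam : ι → ℝ) (v : E3 → E3) : ℝ :=
  ∑' i, lam i * ipr v (e i) ^ 2

/-- Leray-Hopf solutions on `[0, T]` of `∂ₜ v + (v · ∇) v + ∇p = ν Δ v - D v`, `div v = 0` in `Ω`,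
`v = 0` on `∂Ω`, where `D = ∑ lam i ⟨·, e i⟩ e i`; `G` is the gradient of `v`. The equation is
tested with the complete system `e` (in time it is written in integrated form). -/
structure LHL {ι : Type} (Ω : Set E3) (ν : ℝ) (e : ι → E3 → E3) (lam : ι → ℝ)
    (T : ℝ) (v : ℝ → E3 → E3) (G : ℝ → E3 → Fin 3 → E3) : Prop where
  inH : ∀ t ∈ Icc 0 T, InH Ω (v t)
  cont : ∀ w, InH Ω w → ContinuousOn (fun t => ipr (v t) w) (Icc 0 T)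
  grad : ∀ᵐ t ∂(volume.restrict (Ioo 0 T)), H1w Ω (v t) (G t)
  diss : IntegrableOn (fun t => gg (G t)) (Ioo 0 T) volume
  form : ∀ᵐ t ∂(volume.restrict (Ioo 0 T)), Summable (fun i => lam i * ipr (v t) (e i) ^ 2)
  dint : IntegrableOn (fun t => dsp e lam (v t)) (Ioo 0 T) volume
  int : ∀ i, IntegrableOn (fun τ => -(lam i * ipr (v τ) (e i)) - ν * gf (G τ) (e i) -
    av (v τ) (G τ) (e i)) (Ioo 0 T) volume
  eqn : ∀ i, ∀ t ∈ Icc 0 T, ipr (v t) (e i) = ipr (v 0) (e i) +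
    ∫ τ in (0 : ℝ)..t, (-(lam i * ipr (v τ) (e i)) - ν * gf (G τ) (e i) - av (v τ) (G τ) (e i))
  energy : ∀ t ∈ Icc 0 T, ipr (v t) (v t) +
    2 * (∫ τ in (0 : ℝ)..t, (ν * gg (G τ) + dsp e lam (v τ))) ≤ ipr (v 0) (v 0)

/-- The strong solution on `[0, T)`. -/
structure StrL {ι : Type} (Ω : Set E3) (ν : ℝ) (e : ι → E3 → E3) (lam : ι → ℝ)
    (T : ℝ) (u : ℝ → E3 → E3) : Prop where
  co : Countable ι
  sys : DissD Ω e lam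
  sol : SolL Ω ν e lam T u
  smooth : ∀ t ∈ Ico 0 T, ContDiff ℝ (⊤ : ℕ∞) (u t)
  der : ∀ k : ℕ, ∀ T' < T, ∃ M, ∀ t ∈ Icc 0 T', ∀ x, ‖iteratedFDeriv ℝ k (u t) x‖ ≤ M
  en : ∀ t ∈ Ico 0 T, Summable (fun i => lam i * ipr (u t) (e i) ^ 2) ∧
    HasDerivWithinAt (fun τ => ipr (u τ) (u τ))
      (-(2 * (ν * dirf (u t) (u t) + dsp e lam (u t)))) (Ico 0 T) t
  dint : IntegrableOn (fun t => dsp e lam (u t)) (Ioo 0 T) volume
  gint : IntegrableOn (fun t => dirf (u t) (u t)) (Ioo 0 T) volume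
  cfk : ∀ k : ℕ, ∀ T' < T, ∃ b : ι → ℝ, Summable b ∧ ∀ t ∈ Icc 0 T', ∀ i,
    |ipr (u t) (e i)| * nk k (e i) ≤ b i
  rep : ∀ t ∈ Ico 0 T, u t = ser e (fun i => ipr (u t) (e i))

/-- `SkewD` with `σ = id`, `s = 0` (to use the results of the project EJ). -/
theorem skew0 {ι : Type} {Ω : Set E3} {e : ι → E3 → E3} {lam : ι → ℝ} (h : DissD Ω e lam) :
    SkewD Ω e id (fun _ => 0) :=
  ⟨h.field, h.orth, h.compl, fun _ => rfl, fun _ => by simp⟩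

/-! ### Statements -/

/-- `EJ.S_BLOWE` with damping (as `DI.S_BLOWD`). -/
def S_BLOWED : Prop := ∀ (J : Type) (g o : J → ℕ) (σ : J → J) (τ : J → ℝ)
  (η : ℝ) (lm L C ℓ ρ : ℕ → ℝ) (B : ℕ → ℕ → ℝ) (R E : Ix J → ℝ) (D : Ix J → Ix J → ℝ)
  (c : Ix J → Ix J → Ix J → ℝ) (β : J → ℝ) (S₁ : ℕ → ℝ), KD g L C ℓ ρ B R E D c →
  SeqE η lm L C ℓ B → Rot o σ τ → (∀ j, 0 < β j) → ∃ S : ℕ → ℝ, (∀ n, 1 ≤ S n) ∧
    (∀ n, S₁ n ≤ S n) ∧ ∃ (T : ℝ) (z : Ix J → ℝ → ℝ),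
    0 < T ∧ SolE η L o σ τ (Dp S o D) c β (fun _ => 0) T z ∧
    ∀ j, ∀ t ∈ Ico 0 T, S (o j) * z (Sum.inr j) t ^ 2 ≤ β j

/-- the energy at the end, with the two parts of the dissipation -/
def S_ENDD : Prop := ∀ (Ω : Set E3) (ν : ℝ) (ι : Type) (e : ι → E3 → E3) (lam : ι → ℝ)
  (T η : ℝ) (u : ℝ → E3 → E3) (y : ι → ℝ), IsOpen Ω → Bornology.IsBounded Ω →
  0 < ν → 0 < T → Countable ι → DissD Ω e lam → SolL Ω ν e lam T u →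
  (∀ t ∈ Ico 0 T, ContDiff ℝ 2 (u t)) →
  (∀ t ∈ Ico 0 T, H1w Ω (u t) (gr (u t))) →
  (∀ t ∈ Ico 0 T, Summable (fun i => lam i * ipr (u t) (e i) ^ 2) ∧
    HasDerivWithinAt (fun τ => ipr (u τ) (u τ))
      (-(2 * (ν * dirf (u t) (u t) + dsp e lam (u t)))) (Ico 0 T) t) →
  ipr (u 0) (u 0) = 1 → (∀ t ∈ Ico 0 T, 1 - η ≤ ipr (u t) (u t)) →
  (∀ i, ∃ s ∈ Ico 0 T, ∀ t ∈ Ico s T, |ipr (u t) (e i)| ≤ y i) →
  Summable (fun i => y i ^ 2) → ∑' i, y i ^ 2 ≤ η → 0 < η → η ≤ 1 / 2 →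
  IntegrableOn (fun t => dsp e lam (u t)) (Ioo 0 T) volume ∧
  IntegrableOn (fun t => dirf (u t) (u t)) (Ioo 0 T) volume ∧
  ∃ v : ℝ → E3 → E3, (∀ t ∈ Ico 0 T, v t = u t) ∧ LHL Ω ν e lam T v (fun t => gr (v t)) ∧
    (∀ t ∈ Ico 0 T, ipr (v t) (v t) +
      2 * (∫ τ in (0 : ℝ)..t, (ν * gg (gr (v τ)) + dsp e lam (v τ))) = 1) ∧
    ipr (v T) (v T) + 2 * (∫ τ in (0 : ℝ)..T, (ν * gg (gr (v τ)) + dsp e lam (v τ))) ≤ 2 * η

/-- `EJ.S_W5` with damping: the product of the weak and of the strong solution. -/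
def S_W5D : Prop := ∀ (Ω : Set E3) (ν : ℝ) (ι : Type) (e : ι → E3 → E3) (lam : ι → ℝ)
  (T T' : ℝ) (u v : ℝ → E3 → E3) (G : ℝ → E3 → Fin 3 → E3), IsOpen Ω →
  Bornology.IsBounded Ω → 0 < ν → StrL Ω ν e lam T u → 0 < T' → T' ≤ T →
  LHL Ω ν e lam T' v G → ∀ t ∈ Icc 0 T', t < T →
  IntervalIntegrable (fun τ => 2 * ν * gf (G τ) (u τ) + ipr (conv (u τ)) (v τ) +
    av (v τ) (G τ) (u τ)) volume 0 t ∧
  ipr (u 0) (v 0) - (∫ τ in (0 : ℝ)..t, (2 * ν * gf (G τ) (u τ) +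
    ipr (conv (u τ)) (v τ) + av (v τ) (G τ) (u τ))) -
    (∫ τ in (0 : ℝ)..t, (dsp e lam (u τ) + dsp e lam (v τ))) ≤ ipr (u t) (v t)

/-- `EJ.S_W7` with damping: weak-strong uniqueness. -/
def S_W7D : Prop := ∀ (Ω : Set E3) (ν : ℝ) (ι : Type) (e : ι → E3 → E3) (lam : ι → ℝ)
  (T T' : ℝ) (u v : ℝ → E3 → E3) (G : ℝ → E3 → Fin 3 → E3), IsOpen Ω →
  Bornology.IsBounded Ω → 0 < ν → StrL Ω ν e lam T u → 0 < T' → T' ≤ T →
  LHL Ω ν e lam T' v G → v 0 =ᵐ[volume] u 0 → ∀ t ∈ Icc 0 T', t < T → v t =ᵐ[volume] u t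

end Pool.Agent.Y8.ED
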