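import Pool.Agent.Y8.ED.All
import Pool.Agent.Y154.ED.End
import Pool.Agent.Y954.ED.Prod
import Pool.Agent.Y889.ED.W7

/-! Project ED: the final theorem. -/

set_option autoImplicit false

namespace Pool.Agent.Y8.ED

theorem t_FINED : S_FINED :=
  t_FINED_of' Pool.Agent.Y154.ED.t_ENDD Pool.Agent.Y954.ED.t_W5D Pool.Agent.Y889.ED.t_W7D

end Pool.Agent.Y8.ED
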