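import Pool.Agent.Y8.ED.Main
import Pool.Agent.Y303.EJ.Fin

/-! Project ED: the final theorem from the steps (adapted from `Y303.EJ.Fin`). -/

open Set Filter Topology MeasureTheory Metric

set_option autoImplicit false

namespace Pool.Agent.Y8.ED

open Pool.Agent.Y5 (E3)
open Pool.Agent.Y303.SK
open Pool.Agent.Y303.EJ
open Pool.Agent.Y8.DI

theorem solL_congr {ι : Type} {Ω : Set E3} {ν : ℝ} {e : ι → E3 → E3} {lam : ι → ℝ}
    {T : ℝ} {u v : ℝ → E3 → E3} (h : SolL Ω ν e lam T u) (hv : ∀ t ∈ Ico 0 T, v t = u t) :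
    SolL Ω ν e lam T v :=
  { cont := fun t ht => by rw [hv t ht]; exact h.cont t ht
    zero := fun t ht => by rw [hv t ht]; exact h.zero t ht
    c2 := fun t ht => by rw [hv t ht]; exact h.c2 t ht
    dv := fun t ht => by rw [hv t ht]; exact h.dv t ht
    inH := fun t ht => by rw [hv t ht]; exact h.inH t ht
    bdd := fun T' hT' => by
      obtain ⟨M, hM⟩ := h.bdd T' hT'
      refine ⟨M, fun t ht => ?_⟩
      rw [hv t ⟨ht.1, ht.2.trans_lt hT'⟩]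
      exact hM t ht
    eqn := fun i t ht => by
      rw [hv t ht]
      exact (h.eqn i t ht).congr (fun τ hτ => by rw [hv τ hτ]) (by rw [hv t ht]) }

theorem dsp_nonneg {ι : Type} {Ω : Set E3} {e : ι → E3 → E3} {lam : ι → ℝ}
    (h : DissD Ω e lam) (v : E3 → E3) : 0 ≤ dsp e lam v :=
  tsum_nonneg fun i => mul_nonneg (h.nonneg i) (sq_nonneg _)

/-- The final theorem. -/
def S_FINED : Prop := ∀ (ν : ℝ) (Ω : Set E3) (p : E3) (Λ : (E3 → E3) → ℝ) (η : ℝ), 0 < ν →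
  IsOpen Ω → Bornology.IsBounded Ω → p ∈ Ω → 0 < η → ∃ (ι : Type) (e : ι → E3 → E3)
    (lam : ι → ℝ) (ψ : ℕ → ι) (T : ℝ) (u : ℝ → E3 → E3), DissD Ω e lam ∧
    (∀ n, lam (ψ n) = 0) ∧ (∀ i, (∀ n, i ≠ ψ n) → 0 < lam i ∧ Λ (e i) ≤ lam i) ∧
    (∀ ρ > 0, ∃ N, ∀ n ≥ N, tsupport (e (ψ n)) ⊆ ball p ρ) ∧ 0 < T ∧ u 0 = e (ψ 0) ∧
    LHL Ω ν e lam T u (fun t => gr (u t)) ∧ SolL Ω ν e lam T u ∧
    (∀ t ∈ Ico 0 T, ContDiff ℝ (⊤ : ℕ∞) (u t)) ∧
    (∀ k : ℕ, ∀ T' < T, ∃ M, ∀ t ∈ Icc 0 T', ∀ x, ‖iteratedFDeriv ℝ k (u t) x‖ ≤ M) ∧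
    (∀ t ∈ Ico 0 T, ipr (u t) (u t) +
      2 * (∫ τ in (0 : ℝ)..t, (ν * gg (gr (u τ)) + dsp e lam (u τ))) = ipr (u 0) (u 0)) ∧
    (∀ (T' : ℝ) (v : ℝ → E3 → E3) (G : ℝ → E3 → Fin 3 → E3), 0 < T' → T' ≤ T →
      LHL Ω ν e lam T' v G → v 0 =ᵐ[volume] u 0 → ∀ t ∈ Icc 0 T', v t =ᵐ[volume] u t) ∧
    ∀ (v : ℝ → E3 → E3) (G : ℝ → E3 → Fin 3 → E3), LHL Ω ν e lam T v G →
      v 0 =ᵐ[volume] u 0 →
      ipr (v T) (v T) + 2 * (∫ τ in (0 : ℝ)..T, (ν * gg (G τ) + dsp e lam (v τ))) ≤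
        η * ipr (v 0) (v 0)

theorem t_FINED_of (hCORE : S_CORED) (hEND : S_ENDD) (hW7 : S_W7D) : S_FINED := by
  intro ν Ω p Λ η hν hΩ hbdΩ hp hη
  set η₂ : ℝ := min (η / 3) (1 / 100) with hη₂
  have hη₂0 : 0 < η₂ := lt_min (by linarith) (by norm_num)
  have hη₂1 : η₂ ≤ 1 / 100 := min_le_right _ _
  have hη₂2 : η₂ ≤ η / 3 := min_le_left _ _
  obtain ⟨ι, e, lam, ψ, T, u, C⟩ := hCORE ν Ω p Λ η₂ hν hΩ hbdΩ hp hη₂0 hη₂1
  obtain ⟨y, hy1, hy2, hy3⟩ := C.fin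
  have hone : ipr (u 0) (u 0) = 1 := by
    rw [C.u0]
    exact (C.sys.orth (ψ 0) (ψ 0)).1 rfl
  have hH1 : ∀ t ∈ Ico 0 T, H1w Ω (u t) (gr (u t)) := by
    intro t ht
    have hs : ∀ k : ℕ, Summable (fun a => |ipr (u t) (e a)| * nk k (e a)) := by
      intro k
      obtain ⟨b, hb1, hb2⟩ := C.cfk k t ht.2
      exact Summable.of_nonneg_of_le (fun a => mul_nonneg (abs_nonneg _) (nk_nonneg _ _))
        (fun a => hb2 t ⟨ht.1, le_rfl⟩ a) hb1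
    have h1 := Pool.Agent.Y810.EJ.ser_H1 (Ω := Ω) (e := e) (z := fun i => ipr (u t) (e i)) hbdΩ
      C.sys.field hs
    rw [← C.rep t ht] at h1
    exact h1
  obtain ⟨hdi, hgi, v, hv1, hv2, hv3, hv4⟩ := hEND Ω ν ι e lam T η₂ u y hΩ hbdΩ hν C.hT C.co
    C.sys C.sol (fun t ht => (C.smooth t ht).of_le two_le) hH1 C.en hone C.enl hy1 hy2 hy3 hη₂0
    (by linarith)
  have hstr : StrL Ω ν e lam T u :=
    ⟨C.co, C.sys, C.sol, C.smooth, C.der, C.en, hdi, hgi, C.cfk, C.rep⟩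
  have h0 : (0 : ℝ) ∈ Ico 0 T := ⟨le_rfl, C.hT⟩
  -- uniqueness
  have huniq : ∀ (T' : ℝ) (w : ℝ → E3 → E3) (G : ℝ → E3 → Fin 3 → E3), 0 < T' → T' ≤ T →
      LHL Ω ν e lam T' w G → w 0 =ᵐ[volume] v 0 → ∀ t ∈ Icc 0 T', w t =ᵐ[volume] v t := by
    intro T' w G hT' hTT hw hw0 t ht
    have hw0' : w 0 =ᵐ[volume] u 0 := by rwa [hv1 0 h0] at hw0
    have hlt : ∀ t ∈ Icc 0 T', t < T → w t =ᵐ[volume] v t := by
      intro t ht htT
      rw [hv1 t ⟨ht.1, htT⟩]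
      exact hW7 Ω ν ι e lam T T' u w G hΩ hbdΩ hν hstr hT' hTT hw hw0' t ht htT
    rcases lt_or_eq_of_le (ht.2.trans hTT) with h1 | h1
    · exact hlt t ht h1
    · -- the final time
      have hTT' : T' = T := le_antisymm hTT (h1 ▸ ht.2)
      subst h1
      subst hTT'
      refine ae_of_coef (skew0 C.sys) (hw.inH _ ht) (hv2.inH _ ht) fun i => ?_
      have hei : InH Ω (e i) := Pool.Agent.Y284.EJ.inH_cs (C.sys.field i)
      have c1 := (hw.cont (e i) hei T' ht).mono (Ico_subset_Icc_self)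
      have c2 := (hv2.cont (e i) hei T' ht).mono (Ico_subset_Icc_self)
      have hne : (𝓝[Ico 0 T'] T').NeBot := by
        rw [← mem_closure_iff_nhdsWithin_neBot, closure_Ico hT'.ne]
        exact right_mem_Icc.2 hT'.le
      refine tendsto_nhds_unique c1 (c2.congr' ?_)
      refine eventually_nhdsWithin_of_forall fun τ hτ => ?_
      exact (Pool.Agent.Y284.EJ.ipr_congr_left (hlt τ ⟨hτ.1, hτ.2.le⟩ hτ.2)).symm
  refine ⟨ι, e, lam, ψ, T, v, C.sys, C.zero, C.strong, C.conc, C.hT, by rw [hv1 0 h0, C.u0],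
    hv2, solL_congr C.sol hv1, fun t ht => by rw [hv1 t ht]; exact C.smooth t ht, ?_, ?_,
    huniq, ?_⟩
  · intro k T' hT'
    obtain ⟨M, hM⟩ := C.der k T' hT'
    refine ⟨M, fun t ht => ?_⟩
    rw [hv1 t ⟨ht.1, ht.2.trans_lt hT'⟩]
    exact hM t ht
  · intro t ht
    rw [hv3 t ht, hv1 0 h0, hone]
  · intro w G hw hw0
    have hTI : T ∈ Icc 0 T := ⟨C.hT.le, le_rfl⟩
    have e1 : ∀ t ∈ Icc 0 T, ipr (w t) (w t) = ipr (v t) (v t) := by
      intro t ht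
      have h1 := huniq T w G C.hT le_rfl hw hw0 t ht
      rw [Pool.Agent.Y284.EJ.ipr_congr_left h1, Pool.Agent.Y500.SK.ipr_comm,
        Pool.Agent.Y284.EJ.ipr_congr_left h1]
    have e0 : ipr (w 0) (w 0) = 1 := by rw [e1 0 ⟨le_rfl, C.hT.le⟩, hv1 0 h0, hone]
    -- the energy at the end
    have e2 : ipr (v T) (v T) ≤ 2 * η₂ := by
      have h2 : 0 ≤ ∫ τ in (0 : ℝ)..T, (ν * gg (gr (v τ)) + dsp e lam (v τ)) :=
        intervalIntegral.integral_nonneg C.hT.le fun r _ =>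
          add_nonneg (mul_nonneg hν.le (Pool.Agent.Y284.EJ.gg_nonneg _)) (dsp_nonneg C.sys _)
      linarith
    -- the dissipation
    have e3 : ∀ t ∈ Ico 0 T,
        2 * (∫ τ in (0 : ℝ)..t, (ν * gg (G τ) + dsp e lam (w τ))) ≤ η₂ := by
      intro t ht
      have h2 := hw.energy t ⟨ht.1, ht.2.le⟩
      rw [e1 t ⟨ht.1, ht.2.le⟩, e0, hv1 t ht] at h2
      have h3 := C.enl t ht
      linarith
    have hGi : IntervalIntegrable (fun τ => ν * gg (G τ) + dsp e lam (w τ)) volume 0 T := by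
      rw [intervalIntegrable_iff_integrableOn_Ioo_of_le C.hT.le]
      exact (hw.diss.const_mul ν).add hw.dint
    have hcont : ContinuousOn (fun t => ∫ τ in (0 : ℝ)..t, (ν * gg (G τ) + dsp e lam (w τ)))
        (Icc 0 T) := by
      have := intervalIntegral.continuousOn_primitive_interval' hGi left_mem_uIcc
      rwa [uIcc_of_le C.hT.le] at this
    have e4 : 2 * (∫ τ in (0 : ℝ)..T, (ν * gg (G τ) + dsp e lam (w τ))) ≤ η₂ := by
      have hne : (𝓝[Ico 0 T] T).NeBot := by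
        rw [← mem_closure_iff_nhdsWithin_neBot, closure_Ico C.hT.ne]
        exact right_mem_Icc.2 C.hT.le
      have h5 : Tendsto (fun t => 2 * ∫ τ in (0 : ℝ)..t, (ν * gg (G τ) + dsp e lam (w τ)))
          (𝓝[Ico 0 T] T) (𝓝 (2 * ∫ τ in (0 : ℝ)..T, (ν * gg (G τ) + dsp e lam (w τ)))) :=
        (((hcont T hTI).mono Ico_subset_Icc_self).const_mul 2 :)
      exact le_of_tendsto h5 (eventually_nhdsWithin_of_forall fun t ht => e3 t ht)
    rw [e1 T hTI, e0]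
    linarith

end Pool.Agent.Y8.ED
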