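import Pool.Agent.Y8.ED.CoreC
import Pool.Agent.Y8.ED.Fin

/-! Project ED: blow-up, concentration of the energy and no continuation in the class of the
problem, from the steps. -/

open Set Filter Topology MeasureTheory Metric

set_option autoImplicit false

namespace Pool.Agent.Y8.ED

open Pool.Agent.Y5 (E3)
open Pool.Agent.Y303.SK
open Pool.Agent.Y303.EJ
open Pool.Agent.Y8.DI

/-- The final theorem, with all properties of the solution. -/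
def S_FINCC : Prop := ∀ (ν : ℝ) (Ω : Set E3) (p : E3) (Λ : (E3 → E3) → ℝ) (η : ℝ), 0 < ν →
  IsOpen Ω → Bornology.IsBounded Ω → p ∈ Ω → 0 < η → ∃ (ι : Type) (e : ι → E3 → E3)
    (lam : ι → ℝ) (ψ : ℕ → ι) (T : ℝ) (u : ℝ → E3 → E3), DissD Ω e lam ∧
    (∀ n, lam (ψ n) = 0) ∧ (∀ i, (∀ n, i ≠ ψ n) → 0 < lam i ∧ Λ (e i) ≤ lam i) ∧
    (∀ ρ > 0, ∃ N, ∀ n ≥ N, tsupport (e (ψ n)) ⊆ ball p ρ) ∧
    0 < T ∧ SolL Ω ν e lam T u ∧ u 0 = e (ψ 0) ∧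
    (∀ t ∈ Ico 0 T, ContDiff ℝ (⊤ : ℕ∞) (u t)) ∧
    (∀ k : ℕ, ∀ T' < T, ∃ M, ∀ t ∈ Icc 0 T', ∀ x, ‖iteratedFDeriv ℝ k (u t) x‖ ≤ M) ∧
    (∀ (T' : ℝ) (v : ℝ → E3 → E3), 0 < T' → SolL Ω ν e lam T' v → v 0 = u 0 →
      T' ≤ T ∧ ∀ t ∈ Ico 0 T', v t = u t) ∧
    (∀ t ∈ Ico 0 T, Summable (fun i => lam i * ipr (u t) (e i) ^ 2) ∧
      HasDerivWithinAt (fun τ => ipr (u τ) (u τ))
      (-(2 * (ν * dirf (u t) (u t) + ∑' i, lam i * ipr (u t) (e i) ^ 2))) (Ico 0 T) t) ∧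
    (∀ ρ > 0, ∀ k : ℕ, ∃ M, ∀ t ∈ Ico 0 T, ∀ x, ρ ≤ dist x p →
      ‖iteratedFDeriv ℝ k (u t) x‖ ≤ M) ∧
    (∀ M : ℝ, ∃ t ∈ Ico 0 T, ∃ x, M < ‖u t x‖) ∧
    -- the energy is almost conserved on `[0, T)`, and it concentrates at `p`
    (∀ t ∈ Ico 0 T, (1 - η) * ipr (u 0) (u 0) ≤ ipr (u t) (u t)) ∧
    (∀ ρ > 0, ∃ s ∈ Ico 0 T, ∀ t ∈ Ico s T,
      ∫ x in (ball p ρ)ᶜ, ‖u t x‖ ^ 2 ≤ η * ipr (u 0) (u 0)) ∧
    -- `u` is a Leray-Hopf solution on `[0, T]`, it is unique, and the energy is lost at `T`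
    LHL Ω ν e lam T u (fun t => gr (u t)) ∧
    (∀ (T' : ℝ) (v : ℝ → E3 → E3) (G : ℝ → E3 → Fin 3 → E3), 0 < T' → T' ≤ T →
      LHL Ω ν e lam T' v G → v 0 =ᵐ[volume] u 0 → ∀ t ∈ Icc 0 T', v t =ᵐ[volume] u t) ∧
    ipr (u T) (u T) ≤ η * ipr (u 0) (u 0)

theorem t_FINCC_of (hCORE : S_CORECC) (hEND : S_ENDD) (hW7 : S_W7D) : S_FINCC := by
  intro ν Ω p Λ η hν hΩ hbdΩ hp hη
  set η₂ : ℝ := min (η / 3) (1 / 100) with hη₂
  have hη₂0 : 0 < η₂ := lt_min (by linarith) (by norm_num)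
  have hη₂1 : η₂ ≤ 1 / 100 := min_le_right _ _
  have hη₂2 : η₂ ≤ η / 3 := min_le_left _ _
  obtain ⟨ι, e, lam, ψ, T, u, C, hmax, haw, hco⟩ := hCORE ν Ω p Λ η₂ hν hΩ hbdΩ hp hη₂0 hη₂1
  obtain ⟨y, hy1, hy2, hy3⟩ := C.fin
  have hone : ipr (u 0) (u 0) = 1 := by
    rw [C.u0]
    exact (C.sys.orth (ψ 0) (ψ 0)).1 rfl
  have hH1 : ∀ t ∈ Ico 0 T, H1w Ω (u t) (gr (u t)) := by
    intro t ht
    have hs : ∀ k : ℕ, Summable (fun a => |ipr (u t) (e a)| * nk k (e a)) := by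
      intro k
      obtain ⟨b, hb1, hb2⟩ := C.cfk k t ht.2
      exact Summable.of_nonneg_of_le (fun a => mul_nonneg (abs_nonneg _) (nk_nonneg _ _))
        (fun a => hb2 t ⟨ht.1, le_rfl⟩ a) hb1
    have h1 := Pool.Agent.Y810.EJ.ser_H1 (Ω := Ω) (e := e) (z := fun i => ipr (u t) (e i)) hbdΩ
      C.sys.field hs
    rw [← C.rep t ht] at h1
    exact h1
  obtain ⟨hdi, hgi, v, hv1, hv2, hv3, hv4⟩ := hEND Ω ν ι e lam T η₂ u y hΩ hbdΩ hν C.hT C.co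
    C.sys C.sol (fun t ht => (C.smooth t ht).of_le two_le) hH1 C.en hone C.enl hy1 hy2 hy3 hη₂0
    (by linarith)
  have hstr : StrL Ω ν e lam T u :=
    ⟨C.co, C.sys, C.sol, C.smooth, C.der, C.en, hdi, hgi, C.cfk, C.rep⟩
  have h0 : (0 : ℝ) ∈ Ico 0 T := ⟨le_rfl, C.hT⟩
  have hvone : ipr (v 0) (v 0) = 1 := by rw [hv1 0 h0, hone]
  -- uniqueness
  have huniq : ∀ (T' : ℝ) (w : ℝ → E3 → E3) (G : ℝ → E3 → Fin 3 → E3), 0 < T' → T' ≤ T →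
      LHL Ω ν e lam T' w G → w 0 =ᵐ[volume] v 0 → ∀ t ∈ Icc 0 T', w t =ᵐ[volume] v t := by
    intro T' w G hT' hTT hw hw0 t ht
    have hw0' : w 0 =ᵐ[volume] u 0 := by rwa [hv1 0 h0] at hw0
    have hlt : ∀ t ∈ Icc 0 T', t < T → w t =ᵐ[volume] v t := by
      intro t ht htT
      rw [hv1 t ⟨ht.1, htT⟩]
      exact hW7 Ω ν ι e lam T T' u w G hΩ hbdΩ hν hstr hT' hTT hw hw0' t ht htT
    rcases lt_or_eq_of_le (ht.2.trans hTT) with h1 | h1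
    · exact hlt t ht h1
    · -- the final time
      have hTT' : T' = T := le_antisymm hTT (h1 ▸ ht.2)
      subst h1
      subst hTT'
      refine ae_of_coef (skew0 C.sys) (hw.inH _ ht) (hv2.inH _ ht) fun i => ?_
      have hei : InH Ω (e i) := Pool.Agent.Y284.EJ.inH_cs (C.sys.field i)
      have c1 := (hw.cont (e i) hei T' ht).mono (Ico_subset_Icc_self)
      have c2 := (hv2.cont (e i) hei T' ht).mono (Ico_subset_Icc_self)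
      have hne : (𝓝[Ico 0 T'] T').NeBot := by
        rw [← mem_closure_iff_nhdsWithin_neBot, closure_Ico hT'.ne]
        exact right_mem_Icc.2 hT'.le
      refine tendsto_nhds_unique c1 (c2.congr' ?_)
      refine eventually_nhdsWithin_of_forall fun τ hτ => ?_
      exact (Pool.Agent.Y284.EJ.ipr_congr_left (hlt τ ⟨hτ.1, hτ.2.le⟩ hτ.2)).symm
  refine ⟨ι, e, lam, ψ, T, v, C.sys, C.zero, C.strong, C.conc, C.hT, solL_congr C.sol hv1,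
    by rw [hv1 0 h0, C.u0], fun t ht => by rw [hv1 t ht]; exact C.smooth t ht, ?_, ?_, ?_, ?_, ?_,
    ?_, ?_, hv2, huniq, ?_⟩
  · intro k T' hT'
    obtain ⟨M, hM⟩ := C.der k T' hT'
    refine ⟨M, fun t ht => ?_⟩
    rw [hv1 t ⟨ht.1, ht.2.trans_lt hT'⟩]
    exact hM t ht
  · intro T' w hT' hw hw0
    rw [hv1 0 h0] at hw0
    obtain ⟨h1, h2⟩ := hmax T' w hT' hw hw0
    refine ⟨h1, fun t ht => ?_⟩
    rw [h2 t ht, hv1 t ⟨ht.1, ht.2.trans_le h1⟩]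
  · intro t ht
    have h1 := C.en t ht
    rw [hv1 t ht]
    refine ⟨h1.1, h1.2.congr (fun τ hτ => ?_) ?_⟩
    · rw [hv1 τ hτ]
    · rw [hv1 t ht]
  · intro ρ hρ k
    obtain ⟨M, hM⟩ := haw ρ hρ k
    refine ⟨M, fun t ht x hx => ?_⟩
    rw [hv1 t ht]
    exact hM t ht x hx
  · intro M
    obtain ⟨t, ht, x, hx⟩ := C.blow M
    refine ⟨t, ht, x, ?_⟩
    rw [hv1 t ht]
    exact hx
  · intro t ht
    rw [hvone, hv1 t ht]
    have := C.enl t ht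
    linarith
  · intro ρ hρ
    obtain ⟨s, hs, h1⟩ := hco ρ hρ
    refine ⟨s, hs, fun t ht => ?_⟩
    rw [hvone, hv1 t ⟨hs.1.trans ht.1, ht.2⟩]
    have := h1 t ht
    linarith
  · have h2 : 0 ≤ ∫ τ in (0 : ℝ)..T, (ν * gg (gr (v τ)) + dsp e lam (v τ)) :=
      intervalIntegral.integral_nonneg C.hT.le fun r _ =>
        add_nonneg (mul_nonneg hν.le (Pool.Agent.Y284.EJ.gg_nonneg _)) (dsp_nonneg C.sys _)
    rw [hvone]
    linarith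

end Pool.Agent.Y8.ED
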