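import Pool.Agent.Y8.ED.Defs
import Pool.Agent.Y8.DI.Lem
import Pool.Agent.Y303.EJ.Main

/-! Project ED: the solution on `[0, T)` (adapted from `Y303.EJ.Main` and `Y8.DI.MainD`). -/

open Set Filter Topology MeasureTheory Metric

set_option autoImplicit false

namespace Pool.Agent.Y8.ED

open Pool.Agent.Y5 (E3)
open Pool.Agent.Y5.D (Ix qd vf3 Init)
open Pool.Agent.Y6.N
open Pool.Agent.Y6.K (Kz lv)
open Pool.Agent.Y303.SK
open Pool.Agent.Y303.EJ
open Pool.Agent.Y8.DI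

/-- The solution on `[0, T)`. -/
structure CoreD (Ω : Set E3) (ν : ℝ) (p : E3) (Λ : (E3 → E3) → ℝ) (η : ℝ) {ι : Type}
    (e : ι → E3 → E3) (lam : ι → ℝ) (ψ : ℕ → ι) (T : ℝ) (u : ℝ → E3 → E3) : Prop where
  co : Countable ι
  sys : DissD Ω e lam
  zero : ∀ n, lam (ψ n) = 0
  strong : ∀ i, (∀ n, i ≠ ψ n) → 0 < lam i ∧ Λ (e i) ≤ lam i
  conc : ∀ ρ > 0, ∃ N, ∀ n ≥ N, tsupport (e (ψ n)) ⊆ ball p ρ
  hT : 0 < T
  sol : SolL Ω ν e lam T u
  u0 : u 0 = e (ψ 0)
  smooth : ∀ t ∈ Ico 0 T, ContDiff ℝ (⊤ : ℕ∞) (u t)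
  der : ∀ k : ℕ, ∀ T' < T, ∃ M, ∀ t ∈ Icc 0 T', ∀ x, ‖iteratedFDeriv ℝ k (u t) x‖ ≤ M
  en : ∀ t ∈ Ico 0 T, Summable (fun i => lam i * ipr (u t) (e i) ^ 2) ∧
    HasDerivWithinAt (fun τ => ipr (u τ) (u τ))
      (-(2 * (ν * dirf (u t) (u t) + ∑' i, lam i * ipr (u t) (e i) ^ 2))) (Ico 0 T) t
  cfk : ∀ k : ℕ, ∀ T' < T, ∃ b : ι → ℝ, Summable b ∧ ∀ t ∈ Icc 0 T', ∀ i,
    |ipr (u t) (e i)| * nk k (e i) ≤ b i
  rep : ∀ t ∈ Ico 0 T, u t = ser e (fun i => ipr (u t) (e i))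
  enl : ∀ t ∈ Ico 0 T, 1 - η ≤ ipr (u t) (u t)
  fin : ∃ y : ι → ℝ, (∀ i, ∃ s ∈ Ico 0 T, ∀ t ∈ Ico s T, |ipr (u t) (e i)| ≤ y i) ∧
    Summable (fun i => y i ^ 2) ∧ ∑' i, y i ^ 2 ≤ η
  blow : ∀ M : ℝ, ∃ t ∈ Ico 0 T, ∃ x, M < ‖u t x‖

/-- The solution on `[0, T)` exists. -/
def S_CORED : Prop := ∀ (ν : ℝ) (Ω : Set E3) (p : E3) (Λ : (E3 → E3) → ℝ) (η : ℝ), 0 < ν →
  IsOpen Ω → Bornology.IsBounded Ω → p ∈ Ω → 0 < η → η ≤ 1 / 100 →
  ∃ (ι : Type) (e : ι → E3 → E3) (lam : ι → ℝ) (ψ : ℕ → ι) (T : ℝ)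
    (u : ℝ → E3 → E3), CoreD Ω ν p Λ η e lam ψ T u

theorem t_CORED_of (hBLOW : S_BLOWED) (hPK : S_PK) (hPAR : S_PARE) (hBAS : S_BAS)
    (hFORM : S_FORM) (hMM : S_MME) (hINT : S_INTE) (hDERB : S_DERBE) (hCONC : S_CONCE)
    (hSER : S_SER) (hENER : S_ENERD) (hWC : S_WC) : S_CORED := by
  intro ν Ω p Λ η hν hΩ hbdΩ hp hη hη1
  obtain ⟨Ψ, H, a, κ, h, q, q', hpk⟩ := hPK
  obtain ⟨δ₀, hδ₀, hball⟩ := Metric.isOpen_iff.1 hΩ p hp
  -- parameters
  set G₀ : ℝ := ν * (dirf Ψ Ψ + dirf H H) with hG₀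
  have hG₀0 : 0 ≤ G₀ := mul_nonneg hν.le (add_nonneg (dirf_nonneg _) (dirf_nonneg _))
  obtain ⟨r, α, ε, lm, L, hP'⟩ := hPAR a κ h q' (G₀ + 1) (δ₀ / 2) η hpk.a0 hpk.κ0 hpk.h0
    hpk.q'0 (by linarith) (by linarith) hη hη1
  have hP : ParE a κ h q' G₀ (δ₀ / 2) η r α ε lm L := pare_mono (by linarith) hP'
  have hq'1 : q' < 1 := hpk.qq.trans hpk.q1
  have hrpow : ∀ n, r n ≤ q' ^ n * r 0 := by
    intro n
    induction n with
    | zero => simp
    | succ n ih =>
      refine (hP.rstep n).trans ?_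
      rw [pow_succ]
      calc q' * r n ≤ q' * (q' ^ n * r 0) := mul_le_mul_of_nonneg_left ih hpk.q'0.le
        _ = q' ^ n * q' * r 0 := by ring
  have hr0 : ∀ n, r n ≤ r 0 := by
    intro n
    refine (hrpow n).trans ?_
    have h1 : q' ^ n ≤ 1 := pow_le_one₀ hpk.q'0.le hq'1.le
    have := hP.r0 0
    nlinarith
  have hrlim : Tendsto r atTop (𝓝 0) := by
    have h1 : Tendsto (fun n : ℕ => q' ^ n * r 0) atTop (𝓝 (0 * r 0)) :=
      (tendsto_pow_atTop_nhds_zero_of_lt_one hpk.q'0.le hq'1).mul_const _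
    rw [zero_mul] at h1
    exact squeeze_zero (fun n => (hP.r0 n).le) hrpow h1
  -- main modes
  obtain ⟨m1, m2, m3, m4, -⟩ := hMM p Ψ H a κ h q q' G₀ (δ₀ / 2) η r α ε lm L hpk hP
  set ψ : ℕ → E3 → E3 := psi p Ψ H r α ε with hψ
  have hrδ : ∀ n, r n ≤ δ₀ / 2 := fun n => (hr0 n).trans hP.rδ
  have hcsψ : ∀ n, CS Ω (ψ n) := fun n => (m1 n).mono
    ((ball_subset_ball (by have := hrδ n; linarith)).trans hball)
  have hlow : ∀ n m, n < m → ∃ s θ, Low p (r m) H (ψ n) s θ := by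
    intro n m hnm
    rcases (show n + 1 ≤ m from hnm).eq_or_lt with h1 | h1
    · subst h1
      exact ⟨_, _, m2 n⟩
    · exact ⟨_, _, m3 n m h1⟩
  have hzero : ∀ n x, x ∉ ball p (r n) → ψ n x = 0 := fun n x hx => (m1 n).zero_of hx
  have horth' : ∀ n m, n < m → ipr (ψ n) (ψ m) = 0 := by
    intro n m hnm
    obtain ⟨s, θ, hl⟩ := hlow n m hnm
    have h1 := (hcsψ n).mono (subset_univ Ω)
    exact (hINT p Ψ H a κ h q q' G₀ (δ₀ / 2) η r α ε lm L hpk hP m (ψ n) (ψ n) s θ s θ h1 h1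
      hl hl).1
  have horth : ∀ m n, (m = n → ipr (ψ m) (ψ n) = 1) ∧ (m ≠ n → ipr (ψ m) (ψ n) = 0) := by
    intro m n
    refine ⟨fun h1 => by rw [h1]; exact m4 n, fun h1 => ?_⟩
    rcases lt_or_gt_of_ne h1 with h2 | h2
    · exact horth' m n h2
    · rw [(hFORM.2.1 _ _).1]
      exact horth' n m h2
  -- the other modes
  set y : E3 := p + EuclideanSpace.single (0 : Fin 3) (3 * δ₀ / 4) with hy
  have hpy : dist y p = 3 * δ₀ / 4 := by
    rw [hy, dist_eq_norm, add_sub_cancel_left, EuclideanSpace.norm_single, Real.norm_eq_abs,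
      abs_of_pos (by linarith)]
  have hyb : ball y (δ₀ / 4) ⊆ Ω := by
    refine Subset.trans ?_ hball
    intro x hx
    rw [mem_ball] at hx ⊢
    have := dist_triangle x y p
    linarith
  have hpyb : p ∉ ball y (δ₀ / 4) := by
    rw [mem_ball, dist_comm, hpy]
    linarith
  obtain ⟨w, hw⟩ := hBAS Ω p y (δ₀ / 4) ψ hΩ hp (by linarith) hyb hpyb hcsψ (by
      intro n x hx
      refine hzero n x ?_
      rw [mem_ball] at hx ⊢
      have h1 := dist_triangle y x p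
      rw [dist_comm y x] at h1
      have := hrδ n
      linarith) horth (by
      intro ρ' hρ'
      obtain ⟨N, hN⟩ := Filter.eventually_atTop.1 (hrlim.eventually (gt_mem_nhds hρ'))
      exact ⟨N, fun n hn x hx => hzero n x fun h1 => hx (ball_subset_ball (hN n hn).le h1)⟩)
    (by
      intro n
      refine ⟨Am a r α n, r (n + 2), hP.r0 _, fun x hx => ?_⟩
      have := m3 n (n + 2) le_rfl x hx
      rw [zero_smul, add_zero] at this
      exact this)
  -- the kernel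
  obtain ⟨g, ℓ, ρ, R, E, K, hq⟩ := hCONC ν Ω p Ψ H a κ h q q' (δ₀ / 2) η r α ε lm L hν hpk hP
    ((ball_subset_ball (by have := hrδ 0; linarith)).trans hball) (ℕ × Bool) w hw
  obtain ⟨cβ, hcβ, hcβ1, hsβ, hsβ2⟩ := small_mul (bet_pos w) (bet_summ w) (half_pos hη)
  obtain ⟨S, hS1, hSΛ, T, z, hT, hz, hzS'⟩ := hBLOW (ℕ × Bool) g oo ss tt η lm L _ ℓ ρ _ R E _ _
    (fun j => cβ * bet w j) (fun m => |Λ (w (m, true))| + |Λ (w (m, false))|) K hq rot
    (fun j => mul_pos hcβ (bet_pos w j))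
  have hzS : ∀ j, ∀ t ∈ Ico 0 T, S (oo j) * z (Sum.inr j) t ^ 2 ≤ bet w j := fun j t ht =>
    (hzS' j t ht).trans (by have := bet_pos w j; nlinarith)
  have hoth : ∀ j, ∀ t ∈ Ico 0 T, |z (Sum.inr j) t| ≤ bet w j := fun j t ht =>
    (hz.oth j t ht).trans (by have := bet_pos w j; nlinarith)
  set e : Ix (ℕ × Bool) → E3 → E3 := em ψ w with he
  have hecs : ∀ i, CS Ω (e i) := by
    rintro (n | j)
    · exact hcsψ n
    · exact hw.cs j
  have heorth : ∀ i j, (i = j → ipr (e i) (e j) = 1) ∧ (i ≠ j → ipr (e i) (e j) = 0) := by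
    rintro (n | j) (n' | j')
    · refine ⟨fun h1 => (horth n n').1 (Sum.inl_injective h1), fun h1 => (horth n n').2 fun h2 =>
        h1 (by rw [h2])⟩
    · exact ⟨fun h1 => absurd h1 (by simp), fun _ => hw.perp n j'⟩
    · refine ⟨fun h1 => absurd h1 (by simp), fun _ => ?_⟩
      rw [(hFORM.2.1 _ _).1]
      exact hw.perp n' j
    · refine ⟨fun h1 => (hw.orth j j').1 (Sum.inr_injective h1), fun h1 => (hw.orth j j').2
        fun h2 => h1 (by rw [h2])⟩
  have hdiss : DissD Ω e (rt S oo) := by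
    refine ⟨hecs, heorth, fun v hv ε' hε' => hw.compl v hv ε' hε', ?_⟩
    rintro (n | j)
    · exact le_rfl
    · exact zero_le_one.trans (hS1 _)
  -- sizes
  have hLpos : ∀ n, 0 < L n := fun n => lt_of_lt_of_le one_pos (Bw.L_one hq n)
  have hLs : Summable (fun n => (L n)⁻¹) := Bw.L_inv_sum hq
  have hbd : ∀ k : ℕ, ∀ T' < T, ∃ b : Ix (ℕ × Bool) → ℝ, Summable b ∧ (∀ i, 0 ≤ b i) ∧
      ∀ t ∈ Icc 0 T', ∀ i, |z i t| * nk k (e i) ≤ b i := by
    intro k T' hT'
    obtain ⟨X, m, hX⟩ := hDERB p Ψ H a κ h q q' G₀ (δ₀ / 2) η r α ε lm L hpk hP k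
    obtain ⟨Y, hY⟩ := hz.reg (m + 1) T' hT'
    refine ⟨Sum.elim (fun n => |X| * |Y| * (L n)⁻¹) (fun j => bet w j * nk k (w j)), ?_, ?_, ?_⟩
    · have h3 : Summable ((Sum.elim (fun n => |X| * |Y| * (L n)⁻¹)
          (fun j => bet w j * nk k (w j))) ∘ Sum.inl) := hLs.mul_left _
      have h4 : Summable ((Sum.elim (fun n => |X| * |Y| * (L n)⁻¹)
          (fun j => bet w j * nk k (w j))) ∘ Sum.inr) := bet_nk w k
      exact (HasSum.sum h3.hasSum h4.hasSum).summable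
    · rintro (n | j)
      · have := hLpos n
        simp only [Sum.elim_inl]
        positivity
      · exact mul_nonneg (bet_pos w j).le (nk_nonneg _ _)
    · intro t ht
      rintro (n | j)
      · have h1 := hY t ht n
        have h2 := hX n
        have h3 := hLpos n
        simp only [Sum.elim_inl]
        have h4 : |z (Sum.inl n) t| * nk k (ψ n) ≤ |z (Sum.inl n) t| * (|X| * L n ^ m) := by
          refine mul_le_mul_of_nonneg_left (h2.trans ?_) (abs_nonneg _)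
          exact mul_le_mul_of_nonneg_right (le_abs_self X) (pow_pos h3 m).le
        refine h4.trans ?_
        rw [mul_assoc |X| |Y|]
        have h5 : |z (Sum.inl n) t| * L n ^ m ≤ |Y| * (L n)⁻¹ := by
          rw [← div_eq_mul_inv, le_div_iff₀ h3]
          calc |z (Sum.inl n) t| * L n ^ m * L n = L n ^ (m + 1) * |z (Sum.inl n) t| := by ring
            _ ≤ Y := h1
            _ ≤ |Y| := le_abs_self Y
        calc |z (Sum.inl n) t| * (|X| * L n ^ m) = |X| * (|z (Sum.inl n) t| * L n ^ m) := by ring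
          _ ≤ |X| * (|Y| * (L n)⁻¹) := mul_le_mul_of_nonneg_left h5 (abs_nonneg _)
      · exact mul_le_mul_of_nonneg_right (hoth j t ⟨ht.1, ht.2.trans_lt hT'⟩) (nk_nonneg _ _)
  have hsum : ∀ t ∈ Ico 0 T, ∀ k : ℕ, Summable (fun i => |z i t| * nk k (e i)) := by
    intro t ht k
    obtain ⟨b, hb1, -, hb3⟩ := hbd k t ht.2
    exact Summable.of_nonneg_of_le (fun i => mul_nonneg (abs_nonneg _) (nk_nonneg _ _))
      (hb3 t ⟨ht.1, le_rfl⟩) hb1
  have hco : Countable (Ix (ℕ × Bool)) := inferInstance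
  have habs : ∀ t ∈ Ico 0 T, Summable (fun a => |z a t|) := by
    intro t ht
    obtain ⟨Y, hY⟩ := hz.reg 1 t ht.2
    refine Summable.of_nonneg_of_le (f := Sum.elim (fun n => Y * (L n)⁻¹) (bet w))
      (fun a => abs_nonneg _) ?_ ?_
    · rintro (n | j)
      · simp only [Sum.elim_inl]
        rw [← div_eq_mul_inv, le_div_iff₀ (hLpos n), mul_comm]
        have := hY t ⟨ht.1, le_rfl⟩ n
        rwa [pow_one] at this
      · exact hoth j t ht
    · have h3 : Summable ((Sum.elim (fun n => Y * (L n)⁻¹) (bet w)) ∘ Sum.inl) :=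
        hLs.mul_left _
      have h4 : Summable ((Sum.elim (fun n => Y * (L n)⁻¹) (bet w)) ∘ Sum.inr) := bet_summ w
      exact (HasSum.sum h3.hasSum h4.hasSum).summable
  have hS := fun t (ht : t ∈ Ico 0 T) => hSER Ω (Ix (ℕ × Bool)) e (fun i => z i t) hΩ hbdΩ hecs
    heorth (hsum t ht)
  set u : ℝ → E3 → E3 := fun t => ser e (fun i => z i t) with hu
  have hder : ∀ k : ℕ, ∀ T' < T, ∃ M, ∀ t ∈ Icc 0 T', ∀ x, ‖iteratedFDeriv ℝ k (u t) x‖ ≤ M := by
    intro k T' hT'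
    obtain ⟨b, hb1, hb2, hb3⟩ := hbd k T' hT'
    refine ⟨∑' i, b i, fun t ht x => ?_⟩
    have ht' : t ∈ Ico 0 T := ⟨ht.1, ht.2.trans_lt hT'⟩
    refine ((hS t ht').2.2.1 k x).trans ?_
    exact (hsum t ht' k).tsum_le_tsum (hb3 t ht) hb1
  have hcoef : ∀ t ∈ Ico 0 T, ∀ i, ipr (u t) (e i) = z i t := fun t ht i =>
    (hS t ht).2.2.2.2.2.1 i
  have hsol : SolL Ω ν e (rt S oo) T u := by
    refine ⟨fun t ht => (hS t ht).1.continuous, fun t ht => (hS t ht).2.1,
      fun t ht => ((hS t ht).1.of_le two_le).contDiffOn,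
      fun t ht x _ => (hS t ht).2.2.2.1 x, fun t ht => (hS t ht).2.2.2.2.1, ?_, ?_⟩
    · intro T' hT'
      obtain ⟨M0, h0⟩ := hder 0 T' hT'
      obtain ⟨M1, h1⟩ := hder 1 T' hT'
      obtain ⟨M2, h2⟩ := hder 2 T' hT'
      refine ⟨max M0 (max M1 M2), fun t ht x _ => ⟨?_, ?_, ?_⟩⟩
      · have := h0 t ht x
        rw [norm_iteratedFDeriv_zero] at this
        exact this.trans (le_max_left _ _)
      · have := h1 t ht x
        rw [← norm_iteratedFDeriv_fderiv, norm_iteratedFDeriv_zero] at this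
        exact this.trans ((le_max_left _ _).trans (le_max_right _ _))
      · have := h2 t ht x
        rw [← norm_iteratedFDeriv_fderiv, ← norm_iteratedFDeriv_fderiv,
          norm_iteratedFDeriv_zero] at this
        exact this.trans ((le_max_right _ _).trans (le_max_right _ _))
    · intro i t ht
      have h1 := hz.deriv i t ht
      have h2 : HasDerivWithinAt (fun τ => ipr (u τ) (e i))
          (Kz (fun _ => 0) oo ss tt (fun a => z a t) i - lin (Dp S oo (DD ν e)) (fun a => z a t) i +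
            qd (cc e) (fun a => z a t) i) (Ico 0 T) t :=
        h1.congr (fun τ hτ => hcoef τ hτ i) (hcoef t ht i)
      refine h2.congr_deriv ?_
      have e1 : Kz (fun _ => 0) oo ss tt (fun a => z a t) i = 0 := by
        rcases i with n | j
        · rfl
        · show (0 : ℝ) * tt j * _ = 0
          rw [zero_mul, zero_mul]
      have e4 := lin_Dp (o := oo) (S := S) K (habs t ht) i
      have e2 : lin (DD ν e) (fun a => z a t) i = ν * dirf (u t) (e i) := by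
        have h3 := (hS t ht).2.2.2.2.2.2.1 i
        have h3' : dirf (u t) (e i) = ∑' b, dirf (e i) (e b) * z b t := h3
        rw [h3', ← tsum_mul_left]
        unfold lin DD
        exact tsum_congr fun b => by ring
      have e3 : qd (cc e) (fun a => z a t) i = -adv (u t) (u t) (e i) := by
        have h3 := (hS t ht).2.2.2.2.2.2.2 i
        have h3' : adv (u t) (u t) (e i) =
          ∑' p : Ix (ℕ × Bool) × Ix (ℕ × Bool), adv (e p.1) (e p.2) (e i) * z p.1 t * z p.2 t := h3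
        rw [h3', ← tsum_neg]
        unfold qd cc
        exact tsum_congr fun b => by ring
      rw [e1, e4, e2, e3, hcoef t ht]
      ring
  have hu0 : u 0 = e (Sum.inl 0) := by
    funext x
    show ∑' i, z i 0 • e i x = e (Sum.inl 0) x
    rw [tsum_eq_single (Sum.inl 0)]
    · rw [hz.init.1, one_smul]
    · rintro (n | j) hi
      · rcases n with _ | n
        · exact absurd rfl hi
        · rw [hz.init.2.1, zero_smul]
      · rw [hz.init.2.2, zero_smul]
  -- blow-up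
  have hblow : ∀ M : ℝ, ∃ t ∈ Ico 0 T, ∃ x, M < ‖u t x‖ := by
    intro M
    by_contra hcon
    push Not at hcon
    obtain ⟨n, hn⟩ := hP.small (2 * (M * √((volume (ball (0 : E3) 1)).toReal)))
    obtain ⟨t, ht, hbig⟩ := hz.big n
    have h1 := ipr_small (hP.r0 n) (m1 n) (m4 n) (hcon t ht)
    have h2 : ipr (u t) (ψ n) = z (Sum.inl n) t := hcoef t ht (Sum.inl n)
    rw [h2] at h1
    have h3 : ((8 : ℝ) / 1000) ^ n ≤ 1 := pow_le_one₀ (by norm_num) (by norm_num)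
    linarith
  have hcf : ∀ T' < T, ∃ b : Ix (ℕ × Bool) → ℝ, Summable b ∧
      ∀ t ∈ Icc 0 T', ∀ i, |ipr (u t) (e i)| ≤ b i ∧ rt S oo i * ipr (u t) (e i) ^ 2 ≤ b i := by
    intro T' hT'
    obtain ⟨Y, hY⟩ := hz.reg 1 T' hT'
    refine ⟨Sum.elim (fun n => |Y| * (L n)⁻¹) (bet w), ?_, ?_⟩
    · have h3 : Summable ((Sum.elim (fun n => |Y| * (L n)⁻¹) (bet w)) ∘ Sum.inl) :=
        hLs.mul_left _
      have h4 : Summable ((Sum.elim (fun n => |Y| * (L n)⁻¹) (bet w)) ∘ Sum.inr) := bet_summ w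
      exact (HasSum.sum h3.hasSum h4.hasSum).summable
    · intro t ht i
      have ht' : t ∈ Ico 0 T := ⟨ht.1, ht.2.trans_lt hT'⟩
      rw [hcoef t ht']
      rcases i with n | j
      · simp only [Sum.elim_inl]
        have h5 := hLpos n
        refine ⟨?_, ?_⟩
        · rw [← div_eq_mul_inv, le_div_iff₀ h5, mul_comm]
          have := hY t ht n
          rw [pow_one] at this
          exact this.trans (le_abs_self _)
        · show (0 : ℝ) * _ ≤ _
          rw [zero_mul]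
          positivity
      · exact ⟨hoth j t ht', hzS j t ht'⟩
  have hcfk : ∀ k : ℕ, ∀ T' < T, ∃ b : Ix (ℕ × Bool) → ℝ, Summable b ∧
      ∀ t ∈ Icc 0 T', ∀ i, |ipr (u t) (e i)| * nk k (e i) ≤ b i := by
    intro k T' hT'
    obtain ⟨b, hb1, -, hb3⟩ := hbd k T' hT'
    refine ⟨b, hb1, fun t ht i => ?_⟩
    rw [hcoef t ⟨ht.1, ht.2.trans_lt hT'⟩]
    exact hb3 t ht i
  have hrep : ∀ t ∈ Ico 0 T, u t = ser e (fun i => ipr (u t) (e i)) := by
    intro t ht
    have h1 : (fun i => ipr (u t) (e i)) = fun i => z i t := funext fun i => hcoef t ht i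
    rw [h1]
  refine ⟨Ix (ℕ × Bool), e, rt S oo, Sum.inl, T, u, hco, hdiss, fun n => rfl, ?_, ?_, hT, hsol,
    hu0, fun t ht => (hS t ht).1, hder, ?_, hcfk, hrep, ?_, ?_, hblow⟩
  · rintro (n | j) hi
    · exact absurd rfl (hi n)
    · refine ⟨lt_of_lt_of_le one_pos (hS1 _), ?_⟩
      show Λ (w j) ≤ S (oo j)
      refine le_trans ?_ (hSΛ (oo j))
      have h1 := le_abs_self (Λ (w j))
      have h2 := abs_nonneg (Λ (w (j.1, true)))
      have h3 := abs_nonneg (Λ (w (j.1, false)))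
      obtain ⟨m, c⟩ := j
      cases c
      · show Λ (w (m, false)) ≤ |Λ (w (m, true))| + |Λ (w (m, false))|
        linarith
      · show Λ (w (m, true)) ≤ |Λ (w (m, true))| + |Λ (w (m, false))|
        linarith
  · intro ρ' hρ'
    obtain ⟨N, hN⟩ := Filter.eventually_atTop.1 (hrlim.eventually (gt_mem_nhds hρ'))
    exact ⟨N, fun n hn => (m1 n).supp.trans (ball_subset_ball (hN n hn).le)⟩
  · exact hENER Ω ν _ e (rt S oo) T u hΩ hbdΩ hdiss hsol
      (fun t ht => (hS t ht).1.of_le two_le) hcf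
  · intro t ht
    rw [((hWC Ω _ e id (fun _ => 0) hΩ hbdΩ (skew0 hdiss) hco).1 (u t) (hS t ht).2.2.2.2.1).2]
    refine (hz.enl t ht).trans (le_of_eq ?_)
    exact tsum_congr fun i => by rw [hcoef t ht i]
  · have hη' : ∀ n : ℕ, (dl η n) ^ 2 = η ^ 2 * (1 / 16) ^ n := by
      intro n
      unfold dl
      rw [div_pow, ← pow_mul, mul_comm n 2, pow_mul, div_eq_mul_inv, one_div, inv_pow]
      norm_num
    have hg1 : Summable (fun n : ℕ => (dl η n) ^ 2) := by
      have h1 : Summable (fun n : ℕ => ((1 : ℝ) / 16) ^ n) :=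
        summable_geometric_of_lt_one (by norm_num) (by norm_num)
      exact (h1.mul_left (η ^ 2)).congr fun n => (hη' n).symm
    have hg2 : ∑' n : ℕ, (dl η n) ^ 2 ≤ η / 2 := by
      have h1 : ∑' n : ℕ, (dl η n) ^ 2 = η ^ 2 * (16 / 15) := by
        rw [tsum_congr hη', tsum_mul_left, tsum_geometric_of_lt_one (by norm_num) (by norm_num)]
        norm_num
      rw [h1]
      nlinarith
    refine ⟨Sum.elim (fun n => dl η n) (fun j => cβ * bet w j), ?_, ?_, ?_⟩
    · rintro (n | j)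
      · obtain ⟨s, hs, h1⟩ := hz.left n
        refine ⟨s, hs, fun t ht => ?_⟩
        rw [hcoef t ⟨hs.1.trans ht.1, ht.2⟩]
        exact h1 t ht
      · refine ⟨0, ⟨le_rfl, hT⟩, fun t ht => ?_⟩
        rw [hcoef t ht]
        exact hz.oth j t ht
    · have h3 : Summable ((fun i => (Sum.elim (fun n => dl η n) (fun j => cβ * bet w j) i) ^ 2)
          ∘ Sum.inl) := hg1
      have h4 : Summable ((fun i => (Sum.elim (fun n => dl η n) (fun j => cβ * bet w j) i) ^ 2)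
          ∘ Sum.inr) := hsβ
      exact (HasSum.sum h3.hasSum h4.hasSum).summable
    · have h3 : HasSum ((fun i => (Sum.elim (fun n => dl η n) (fun j => cβ * bet w j) i) ^ 2)
          ∘ Sum.inl) (∑' n : ℕ, (dl η n) ^ 2) := hg1.hasSum
      have h4 : HasSum ((fun i => (Sum.elim (fun n => dl η n) (fun j => cβ * bet w j) i) ^ 2)
          ∘ Sum.inr) (∑' j, (cβ * bet w j) ^ 2) := hsβ.hasSum
      rw [(HasSum.sum h3 h4).tsum_eq]
      linarith


end Pool.Agent.Y8.ED
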