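import Pool.Agent.Y8.ED.End
import Pool.Agent.Y8.DI.Res
import Pool.Agent.Y303.EJ.Res

/-!
Project ED: the form in which the main theorem is stated (fields on `EuclideanSpace ℝ (Fin 3)`).
The definitions `dvg`, `CS`, `ipr`, `dirf`, `adv`, `InH`, `SmD` are in `Pool.Agent.Y303.SK.Res`, the
definitions `DissD`, `SolL`, `Damp` in `Pool.Agent.Y8.DI.Res`, and `gr`, `gf`, `av`, `gg`, `H1` in
`Pool.Agent.Y303.EJ.Res`.
-/

open Set MeasureTheory Metric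

set_option autoImplicit false

namespace Pool.Agent.Y8.EDR

open Pool.Agent.Y303.SKR Pool.Agent.Y303.EJR Pool.Agent.Y8.DIR

/-- the form `⟨D v, v⟩` -/
noncomputable def dsp {ι : Type}
    (e : ι → EuclideanSpace ℝ (Fin 3) → EuclideanSpace ℝ (Fin 3)) (lam : ι → ℝ)
    (v : EuclideanSpace ℝ (Fin 3) → EuclideanSpace ℝ (Fin 3)) : ℝ :=
  ∑' i, lam i * ipr v (e i) ^ 2

/-- Leray-Hopf solutions on `[0, T]` of `∂ₜ v + (v · ∇) v + ∇p = ν Δ v - D v`, `div v = 0` in `Ω`,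
`v = 0` on `∂Ω`, where `D = ∑ lam i ⟨·, e i⟩ e i`; `G` is the gradient of `v`. The equation is
tested with the complete system `e` (in time it is written in integrated form). -/
structure LHL {ι : Type} (Ω : Set (EuclideanSpace ℝ (Fin 3))) (ν : ℝ)
    (e : ι → EuclideanSpace ℝ (Fin 3) → EuclideanSpace ℝ (Fin 3)) (lam : ι → ℝ)
    (T : ℝ) (v : ℝ → EuclideanSpace ℝ (Fin 3) → EuclideanSpace ℝ (Fin 3))
    (G : ℝ → EuclideanSpace ℝ (Fin 3) → Fin 3 → EuclideanSpace ℝ (Fin 3)) : Prop where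
  inH : ∀ t ∈ Icc 0 T, InH Ω (v t)
  cont : ∀ w, InH Ω w → ContinuousOn (fun t => ipr (v t) w) (Icc 0 T)
  grad : ∀ᵐ t ∂(volume.restrict (Ioo 0 T)), H1 Ω (v t) (G t)
  diss : IntegrableOn (fun t => gg (G t)) (Ioo 0 T) volume
  form : ∀ᵐ t ∂(volume.restrict (Ioo 0 T)), Summable (fun i => lam i * ipr (v t) (e i) ^ 2)
  dint : IntegrableOn (fun t => dsp e lam (v t)) (Ioo 0 T) volume
  int : ∀ i, IntegrableOn (fun τ => -(lam i * ipr (v τ) (e i)) - ν * gf (G τ) (e i) -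
    av (v τ) (G τ) (e i)) (Ioo 0 T) volume
  eqn : ∀ i, ∀ t ∈ Icc 0 T, ipr (v t) (e i) = ipr (v 0) (e i) +
    ∫ τ in (0 : ℝ)..t, (-(lam i * ipr (v τ) (e i)) - ν * gf (G τ) (e i) - av (v τ) (G τ) (e i))
  energy : ∀ t ∈ Icc 0 T, ipr (v t) (v t) +
    2 * (∫ τ in (0 : ℝ)..t, (ν * gg (G τ) + dsp e lam (v τ))) ≤ ipr (v 0) (v 0)

/-- `‖v(t)‖² + 2 ∫₀ᵗ (ν ‖G‖² + ⟨D v, v⟩)`: energy at the time `t` plus dissipated energy -/
noncomputable def tot {ι : Type} (ν : ℝ)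
    (e : ι → EuclideanSpace ℝ (Fin 3) → EuclideanSpace ℝ (Fin 3)) (lam : ι → ℝ)
    (v : ℝ → EuclideanSpace ℝ (Fin 3) → EuclideanSpace ℝ (Fin 3))
    (G : ℝ → EuclideanSpace ℝ (Fin 3) → Fin 3 → EuclideanSpace ℝ (Fin 3)) (t : ℝ) : ℝ :=
  ipr (v t) (v t) + 2 * (∫ τ in (0 : ℝ)..t, (ν * gg (G τ) + dsp e lam (v τ)))

/-- uniqueness in the class of the Leray-Hopf solutions -/
def UnqL {ι : Type} (Ω : Set (EuclideanSpace ℝ (Fin 3))) (ν : ℝ)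
    (e : ι → EuclideanSpace ℝ (Fin 3) → EuclideanSpace ℝ (Fin 3)) (lam : ι → ℝ)
    (T : ℝ) (u : ℝ → EuclideanSpace ℝ (Fin 3) → EuclideanSpace ℝ (Fin 3)) : Prop :=
  ∀ (T' : ℝ) (v : ℝ → EuclideanSpace ℝ (Fin 3) → EuclideanSpace ℝ (Fin 3))
    (G : ℝ → EuclideanSpace ℝ (Fin 3) → Fin 3 → EuclideanSpace ℝ (Fin 3)), 0 < T' →
    T' ≤ T → LHL Ω ν e lam T' v G → v 0 =ᵐ[volume] u 0 → ∀ t ∈ Icc 0 T', v t =ᵐ[volume] u t

open Pool.Agent.Y5 (E3)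

theorem lhl_iff {ι : Type} {Ω : Set E3} {ν : ℝ} {e : ι → E3 → E3} {lam : ι → ℝ}
    {T : ℝ} {v : ℝ → E3 → E3} {G : ℝ → E3 → Fin 3 → E3} :
    LHL Ω ν e lam T v G ↔ ED.LHL Ω ν e lam T v G := by
  constructor
  · intro h
    exact ⟨fun t ht => inH_iff.1 (h.inH t ht), fun w hw => h.cont w (inH_iff.2 hw),
      h.grad.mono fun t ht => h1_iff.1 ht, h.diss, h.form, h.dint, h.int, h.eqn, h.energy⟩
  · intro h
    exact ⟨fun t ht => inH_iff.2 (h.inH t ht), fun w hw => h.cont w (inH_iff.1 hw),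
      h.grad.mono fun t ht => h1_iff.2 ht, h.diss, h.form, h.dint, h.int, h.eqn, h.energy⟩

theorem t_RESED (ν : ℝ) (Ω : Set (EuclideanSpace ℝ (Fin 3))) (p : EuclideanSpace ℝ (Fin 3))
    (Λ : (EuclideanSpace ℝ (Fin 3) → EuclideanSpace ℝ (Fin 3)) → ℝ) (η : ℝ) (hν : 0 < ν)
    (hΩ : IsOpen Ω) (hb : Bornology.IsBounded Ω) (hp : p ∈ Ω) (hη : 0 < η) :
    ∃ (ι : Type) (e : ι → EuclideanSpace ℝ (Fin 3) → EuclideanSpace ℝ (Fin 3)) (lam : ι → ℝ)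
      (ψ : ℕ → ι) (T : ℝ) (u : ℝ → EuclideanSpace ℝ (Fin 3) → EuclideanSpace ℝ (Fin 3)),
      DissD Ω e lam ∧ Damp p Λ e lam ψ ∧ 0 < T ∧ u 0 = e (ψ 0) ∧
      LHL Ω ν e lam T u (fun t => gr (u t)) ∧ SolL Ω ν e lam T u ∧ SmD T u ∧
      (∀ t ∈ Ico 0 T, tot ν e lam u (fun t => gr (u t)) t = ipr (u 0) (u 0)) ∧
      UnqL Ω ν e lam T u ∧
      ∀ (v : ℝ → EuclideanSpace ℝ (Fin 3) → EuclideanSpace ℝ (Fin 3))
        (G : ℝ → EuclideanSpace ℝ (Fin 3) → Fin 3 → EuclideanSpace ℝ (Fin 3)),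
        LHL Ω ν e lam T v G → v 0 =ᵐ[volume] u 0 →
        tot ν e lam v G T ≤ η * ipr (v 0) (v 0) := by
  obtain ⟨ι, e, lam, ψ, T, u, h1, h2, h3, h4, h5, h6, h7, h8, h9, h10, h11, h12, h13⟩ :=
    ED.t_FINED ν Ω p Λ η hν hΩ hb hp hη
  refine ⟨ι, e, lam, ψ, T, u, dissD_iff.2 h1, ⟨h2, h3, h4⟩, h5, h6, lhl_iff.2 h7, solL_iff.2 h8,
    ⟨h9, h10⟩, h11, ?_, ?_⟩
  · intro T' v G hT' hTT hv hv0
    exact h12 T' v G hT' hTT (lhl_iff.1 hv) hv0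
  · intro v G hv hv0
    exact h13 v G (lhl_iff.1 hv) hv0

end Pool.Agent.Y8.EDR
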