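import Pool.Agent.Y8.ED.FinC
import Pool.Agent.Y8.ED.Res
import Pool.Agent.Y407.DI.Uniq

/-!
Project ED: blow-up, concentration of the energy and no continuation in the class of the problem, in
the form in which it is stated (fields on `EuclideanSpace ℝ (Fin 3)`). The definitions `dvg`, `CS`,
`ipr`, `dirf`, `adv`, `InH`, `SmD` are in `Pool.Agent.Y303.SK.Res`, `gr`, `gf`, `av`, `gg`, `H1` in
`Pool.Agent.Y303.EJ.Res`, `DissD`, `SolL`, `Damp`, `EnL`, `AwayL` in `Pool.Agent.Y8.DI.Res`, and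
`dsp`, `LHL` in `Pool.Agent.Y8.ED.Res`.
-/

open Set Filter Topology MeasureTheory Metric

set_option autoImplicit false

namespace Pool.Agent.Y8.ED

open Pool.Agent.Y303.SK Pool.Agent.Y303.EJ Pool.Agent.Y8.DI

theorem t_CORECC : S_CORECC :=
  t_CORECC_of t_BLOWED Pool.Agent.Y448.SK.t_PK Pool.Agent.Y44.EJ.t_PARE
    Pool.Agent.Y303.SK.t_BAS Pool.Agent.Y317.SK.t_FORM Pool.Agent.Y686.EJ.t_MME t_INTE
    Pool.Agent.Y419.EJ.t_DERBE t_CONCE Pool.Agent.Y427.SK.t_SER Pool.Agent.Y954.DI.t_ENERD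
    Pool.Agent.Y407.DI.t_UNIQD Pool.Agent.Y936.EJ.t_WC

theorem t_W7D' : S_W7D :=
  Pool.Agent.Y889.ED.t_W7D Pool.Agent.Y151.EJ.t_W3
    (Pool.Agent.Y954.ED.t_W5D Pool.Agent.Y310.EJ.t_W2 Pool.Agent.Y151.EJ.t_W3
      Pool.Agent.Y401.EJW.t_W4 Pool.Agent.Y702.EJ.t_PR Pool.Agent.Y936.EJ.t_WC)
    (Pool.Agent.Y812.EJ.W6.t_W6 Pool.Agent.Y310.EJ.t_W2) Pool.Agent.Y702.EJ.t_GR
    Pool.Agent.Y936.EJ.t_WC

theorem t_FINCC : S_FINCC :=
  t_FINCC_of t_CORECC (Pool.Agent.Y154.ED.t_ENDD Pool.Agent.Y936.EJ.t_RF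
    Pool.Agent.Y936.EJ.t_WC) t_W7D'

end Pool.Agent.Y8.ED

namespace Pool.Agent.Y8.EDN

open Pool.Agent.Y303.SKR Pool.Agent.Y303.EJR Pool.Agent.Y8.DIR Pool.Agent.Y8.EDR

/-- The energy stays above `(1 - η) ‖u(0)‖²`, and as `t → T` all of it but `η ‖u(0)‖²` at most
concentrates at the point `p`. -/
def ConcL (p : EuclideanSpace ℝ (Fin 3)) (η T : ℝ)
    (u : ℝ → EuclideanSpace ℝ (Fin 3) → EuclideanSpace ℝ (Fin 3)) : Prop :=
  (∀ t ∈ Ico 0 T, (1 - η) * ipr (u 0) (u 0) ≤ ipr (u t) (u t)) ∧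
    ∀ ρ > 0, ∃ s ∈ Ico 0 T, ∀ t ∈ Ico s T,
      ∫ x in (ball p ρ)ᶜ, ‖u t x‖ ^ 2 ≤ η * ipr (u 0) (u 0)

/-- Every Leray-Hopf solution `v` on `[0, T']`, `T' ≥ T`, with the datum `u 0` is equal to `u` on
`[0, T]`, and its norm in `L²` is not continuous at the time `T` (so `v` is not strongly continuous
with values in `H`, and `∂ₜ v` is not integrable with values in `H`). -/
def NoCont {ι : Type} (Ω : Set (EuclideanSpace ℝ (Fin 3))) (ν : ℝ)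
    (e : ι → EuclideanSpace ℝ (Fin 3) → EuclideanSpace ℝ (Fin 3)) (lam : ι → ℝ)
    (T : ℝ) (u : ℝ → EuclideanSpace ℝ (Fin 3) → EuclideanSpace ℝ (Fin 3)) : Prop :=
  ∀ (T' : ℝ) (v : ℝ → EuclideanSpace ℝ (Fin 3) → EuclideanSpace ℝ (Fin 3))
    (G : ℝ → EuclideanSpace ℝ (Fin 3) → Fin 3 → EuclideanSpace ℝ (Fin 3)), T ≤ T' →
    LHL Ω ν e lam T' v G → v 0 =ᵐ[volume] u 0 → (∀ t ∈ Icc 0 T, v t =ᵐ[volume] u t) ∧
      ¬ ContinuousWithinAt (fun t => ipr (v t) (v t)) (Icc 0 T') T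

open Pool.Agent.Y5 (E3)

theorem lhl_mono {ι : Type} {Ω : Set E3} {ν : ℝ} {e : ι → E3 → E3} {lam : ι → ℝ}
    {T T' : ℝ} {v : ℝ → E3 → E3} {G : ℝ → E3 → Fin 3 → E3} (hT : T ≤ T')
    (h : LHL Ω ν e lam T' v G) : LHL Ω ν e lam T v G := by
  have h1 : Icc 0 T ⊆ Icc 0 T' := Icc_subset_Icc_right hT
  have h2 : Ioo 0 T ⊆ Ioo 0 T' := Ioo_subset_Ioo_right hT
  exact ⟨fun t ht => h.inH t (h1 ht), fun w hw => (h.cont w hw).mono h1,
    ae_restrict_of_ae_restrict_of_subset h2 h.grad, h.diss.mono_set h2,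
    ae_restrict_of_ae_restrict_of_subset h2 h.form, h.dint.mono_set h2,
    fun i => (h.int i).mono_set h2, fun i t ht => h.eqn i t (h1 ht),
    fun t ht => h.energy t (h1 ht)⟩

theorem ipr_congr {v w : E3 → E3} (h : v =ᵐ[volume] w) : ipr v v = ipr w w := by
  unfold ipr
  refine integral_congr_ae ?_
  filter_upwards [h] with x hx
  rw [hx]

theorem t_RESN (ν : ℝ) (Ω : Set (EuclideanSpace ℝ (Fin 3))) (p : EuclideanSpace ℝ (Fin 3))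
    (Λ : (EuclideanSpace ℝ (Fin 3) → EuclideanSpace ℝ (Fin 3)) → ℝ) (η : ℝ) (hν : 0 < ν)
    (hΩ : IsOpen Ω) (hb : Bornology.IsBounded Ω) (hp : p ∈ Ω) (hη : 0 < η) :
    ∃ (ι : Type) (e : ι → EuclideanSpace ℝ (Fin 3) → EuclideanSpace ℝ (Fin 3)) (lam : ι → ℝ)
      (ψ : ℕ → ι) (T : ℝ) (u : ℝ → EuclideanSpace ℝ (Fin 3) → EuclideanSpace ℝ (Fin 3)),
      DissD Ω e lam ∧ Damp p Λ e lam ψ ∧ 0 < T ∧ SolL Ω ν e lam T u ∧ u 0 = e (ψ 0) ∧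
      SmD T u ∧
      (∀ (T' : ℝ) (v : ℝ → EuclideanSpace ℝ (Fin 3) → EuclideanSpace ℝ (Fin 3)), 0 < T' →
        SolL Ω ν e lam T' v → v 0 = u 0 → T' ≤ T ∧ ∀ t ∈ Ico 0 T', v t = u t) ∧
      EnL ν e lam T u ∧ AwayL p T u ∧ (∀ M : ℝ, ∃ t ∈ Ico 0 T, ∃ x, M < ‖u t x‖) ∧
      ConcL p η T u ∧ LHL Ω ν e lam T u (fun t => gr (u t)) ∧ NoCont Ω ν e lam T u := by
  obtain ⟨ι, e, lam, ψ, T, u, h1, h2, h3, h4, h5, h6, h7, h8, h9, h10, h11, h12, h13, h14, h15,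
    h16, h17, h18⟩ := ED.t_FINCC ν Ω p Λ (min η (1 / 4)) hν hΩ hb hp (lt_min hη (by norm_num))
  have hη1 : min η (1 / 4) ≤ η := min_le_left _ _
  have hη2 : min η (1 / 4) ≤ 1 / 4 := min_le_right _ _
  have hone : ipr (u 0) (u 0) = 1 := by
    rw [h7]
    exact (h1.orth (ψ 0) (ψ 0)).1 rfl
  refine ⟨ι, e, lam, ψ, T, u, dissD_iff.2 h1, ⟨h2, h3, h4⟩, h5, solL_iff.2 h6, h7, ⟨h8, h9⟩, ?_,
    h11, h12, h13, ⟨?_, ?_⟩, lhl_iff.2 h16, ?_⟩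
  · intro T' v hT' hv hv0
    exact h10 T' v hT' (solL_iff.1 hv) hv0
  · intro t ht
    have h := h14 t ht
    have h' : ipr (u t) (u t) = Pool.Agent.Y303.SK.ipr (u t) (u t) := rfl
    have h'' : ipr (u 0) (u 0) = Pool.Agent.Y303.SK.ipr (u 0) (u 0) := rfl
    rw [← h', ← h'', hone] at h
    rw [hone]
    linarith
  · intro ρ hρ
    obtain ⟨s, hs, h⟩ := h15 ρ hρ
    refine ⟨s, hs, fun t ht => ?_⟩
    have h := h t ht
    have h'' : ipr (u 0) (u 0) = Pool.Agent.Y303.SK.ipr (u 0) (u 0) := rfl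
    rw [← h'', hone] at h
    rw [hone]
    linarith
  · intro T' v G hTT hv hv0
    have heq : ∀ t ∈ Icc 0 T, v t =ᵐ[volume] u t :=
      h17 T v G h5 le_rfl (lhl_iff.1 (lhl_mono hTT hv)) hv0
    refine ⟨heq, fun hc => ?_⟩
    have hlow : ∀ t ∈ Ico 0 T, 3 / 4 ≤ ipr (v t) (v t) := by
      intro t ht
      have h := h14 t ht
      have h' : ipr (u t) (u t) = Pool.Agent.Y303.SK.ipr (u t) (u t) := rfl
      have h'' : ipr (u 0) (u 0) = Pool.Agent.Y303.SK.ipr (u 0) (u 0) := rfl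
      rw [← h', ← h'', hone] at h
      rw [ipr_congr (heq t ⟨ht.1, ht.2.le⟩)]
      linarith
    have hend : ipr (v T) (v T) ≤ 1 / 4 := by
      have h := h18
      have h' : ipr (u T) (u T) = Pool.Agent.Y303.SK.ipr (u T) (u T) := rfl
      have h'' : ipr (u 0) (u 0) = Pool.Agent.Y303.SK.ipr (u 0) (u 0) := rfl
      rw [← h', ← h'', hone] at h
      rw [ipr_congr (heq T ⟨h5.le, le_rfl⟩)]
      linarith
    have hne : (𝓝[Ico 0 T] T).NeBot := by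
      rw [← mem_closure_iff_nhdsWithin_neBot, closure_Ico h5.ne]
      exact right_mem_Icc.2 h5.le
    have hc' : Tendsto (fun t => ipr (v t) (v t)) (𝓝[Ico 0 T] T) (𝓝 (ipr (v T) (v T))) :=
      hc.mono (Ico_subset_Icc_self.trans (Icc_subset_Icc_right hTT))
    have h := ge_of_tendsto hc' (eventually_nhdsWithin_of_forall hlow)
    linarith

end Pool.Agent.Y8.EDN
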